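import Pool.Agent.H869R3.DM.Lim

/-!
Completeness of the density metric in the structure.
-/

namespace Pool.Agent.H869R3.DM

open Pool.Agent.Helper446 Pool.Agent.Helper446.RE Encodable Filter
open Pool.Agent.Helper617.RM

theorem ev_iff {P Q : ℕ → Prop} : (∀ᶠ i in (U : Filter ℕ), (P i ↔ Q i)) ↔
    ((∀ᶠ i in (U : Filter ℕ), P i) ↔ ∀ᶠ i in (U : Filter ℕ), Q i) := by
  constructor
  · exact fun h => ev_congr h
  · intro h
    by_cases hP : ∀ᶠ i in (U : Filter ℕ), P i
    · filter_upwards [hP, h.1 hP] with i h1 h2 using ⟨fun _ => h2, fun _ => h1⟩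
    · have hQ : ¬ ∀ᶠ i in (U : Filter ℕ), Q i := fun h' => hP (h.2 h')
      filter_upwards [ev_not.2 hP, ev_not.2 hQ] with i h1 h2
      exact ⟨fun h' => absurd h' h1, fun h' => absurd h' h2⟩

/-- every function on the natural numbers is coded -/
theorem exists_coded (F : ℕ → ℕ) : ∃ f : ℕ → ℕ, InM f ∧
    ∀ e, ∀ᶠ i in (U : Filter ℕ), Ft (f i) e = F e := by
  classical
  let P : ℕ → ℕ → Prop := fun i l => encode ((List.range l).map F) ≤ i
  have h0 : ∀ i, P i 0 := fun i => by simp [P]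
  refine ⟨fun i => encode ((List.range (Nat.findGreatest (P i) i)).map F), ?_, fun e => ?_⟩
  · refine InM.id.mono (Eventually.of_forall fun i => ?_)
    exact Nat.findGreatest_spec (P := P i) (Nat.zero_le i) (h0 i)
  · filter_upwards [ev_ge (e + 1), ev_ge (encode ((List.range (e + 1)).map F))] with i h1 h2
    have h3 : e + 1 ≤ Nat.findGreatest (P i) i := Nat.le_findGreatest h1 h2
    unfold Ft
    rw [encodek, Option.getD_some, List.getElem?_map, List.getElem?_range (by omega)]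
    rfl

section main

variable {Z : Set MM} {A1 A0 : ℕ → ℕ → Prop} {p : ℕ → ℕ}

theorem row_mem (hZ : Computes Z A1 A0 p) (m x : NN.M) :
    x ∈ Row NN Z m ↔ ∀ᶠ i in (U : Filter ℕ), prn (rep m i) (rep x i) ∈ hat A1 p i := by
  show NN.pair m x ∈ Z ↔ _
  rw [hZ.mem_iff]
  refine ev_congr ?_
  filter_upwards [rep_pair m x] with i hi
  rw [hi]

theorem symm_iff {α : Type} {A B : Set α} {x : α} :
    x ∈ symmDiff A B ↔ ¬ (x ∈ A ↔ x ∈ B) := by
  rw [Set.mem_symmDiff]
  tauto

theorem dens_rows (c1 : REPred fun q : ℕ × ℕ => A1 q.1 q.2)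
    (c0 : REPred fun q : ℕ × ℕ => A0 q.1 q.2) (hp : InM p) (hZ : Computes Z A1 A0 p)
    (m n j k : NN.M) : DensLe NN (symmDiff (Row NN Z m) (Row NN Z n)) j k ↔
      ∀ᶠ i in (U : Filter ℕ),
        2 ^ rep k i * cnt (dst (hat A1 p i) (rep m i) (rep n i)) (rep j i) ≤ rep j i := by
  refine (dens_iff c1 c0 hp hZ (q := fun i => Nat.pair (rep m i) (rep n i))
    ((rep_inM m).pair (rep_inM n))
    (S := fun X a => dst X a.1.unpair.1 a.1.unpair.2 a.2)
    (UD_dst (by fun_prop) (by fun_prop) (by fun_prop)) (fun x => ?_) j k).trans ?_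
  · simp only [Nat.unpair_pair]
    rw [symm_iff, row_mem hZ, row_mem hZ]
    unfold dst
    rw [ev_not, ev_iff]
  · simp only [Nat.unpair_pair]

/-- triangle inequality -/
theorem dst_le (X : Set ℕ) (m a n j : ℕ) :
    cnt (dst X a n) j ≤ cnt (dst X m a) j + cnt (dst X m n) j := by
  refine cnt_or fun x _ h => ?_
  unfold dst at *
  tauto

/-- the iterates as numbers of the structure -/
noncomputable def bb (e : ℕ) : NN.M := mk (fun i => Bl i e) (InM.bl e)

theorem rep_bb (e : ℕ) : ∀ᶠ i in (U : Filter ℕ), rep (bb e) i = Bl i e := rep_mk _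

theorem complete : DensityComplete NN := by
  classical
  rintro Z ⟨A1, A0, c1, c0, p, hp, hZ⟩ hC
  set H : ℕ → Set ℕ := hat A1 p with hH
  -- step 1: the modulus at the levels `Bl i e`
  have h1 : ∀ e : ℕ, ∃ n0 : ℕ, ∃ m : MM, (∀ᶠ i in (U : Filter ℕ), rep m i ≤ Bl i n0) ∧
      ∀ n : MM, NN.lt m n → ∃ i0 : MM, ∀ j : MM, NN.lt i0 j → ∀ᶠ i in (U : Filter ℕ),
        2 ^ (Bl i e + 1) * cnt (dst (H i) (rep m i) (rep n i)) (rep j i) ≤ rep j i := by
    intro e
    have hM : InM fun i => Bl i e + 1 := (InM.bl e).add (InM.const 1)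
    obtain ⟨m, hm⟩ := hC (mk _ hM)
    obtain ⟨n0, hn0⟩ := rep_inM m
    refine ⟨n0, m, hn0, fun n hn => ?_⟩
    obtain ⟨i0, hi0⟩ := hm n hn
    refine ⟨i0, fun j hj => ?_⟩
    have h2 := (dens_rows c1 c0 hp hZ m n j (mk _ hM)).1 (hi0 j hj)
    filter_upwards [h2, rep_mk hM] with i e1 e2
    rw [e2] at e1
    exact e1
  choose F0 m0 hm0 hF0 using h1
  set F : ℕ → ℕ := fun e => e + 1 + ∑ x ∈ Finset.range (e + 1), F0 x with hF
  have hFmono : StrictMono F := by
    refine strictMono_nat_of_lt_succ fun e => ?_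
    simp only [hF]
    rw [Finset.sum_range_succ (fun x => F0 x) (e + 1)]
    omega
  have hFge : ∀ e, e ≤ F e := fun e => by simp only [hF]; omega
  have hFgt : ∀ e, F0 e < F e := fun e => by
    simp only [hF]
    rw [Finset.sum_range_succ (fun x => F0 x) e]
    omega
  have hm0lt : ∀ e, NN.lt (m0 e) (bb (F e)) := by
    intro e
    refine (lt_iff _ _).2 ?_
    filter_upwards [hm0 e, rep_bb (F e)] with i e1 e2
    rw [e2]
    exact lt_of_le_of_lt e1 (Bl_strictMono i (hFgt e))
  have step1 : ∀ e : ℕ, ∀ n : MM, NN.lt (bb (F e)) n → ∃ i0 : MM, ∀ j : MM, NN.lt i0 j →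
      ∀ᶠ i in (U : Filter ℕ),
        2 ^ (Bl i e) * cnt (dst (H i) (Bl i (F e)) (rep n i)) (rep j i) ≤ rep j i := by
    intro e n hn
    have hn' : NN.lt (m0 e) n := by
      refine (lt_iff _ _).2 ?_
      filter_upwards [(lt_iff _ _).1 (hm0lt e), (lt_iff _ _).1 hn] with i e1 e2
      exact e1.trans e2
    obtain ⟨i1, hi1⟩ := hF0 e _ (hm0lt e)
    obtain ⟨i2, hi2⟩ := hF0 e _ hn'
    have hM : InM fun i => max (rep i1 i) (rep i2 i) := (rep_inM i1).sup (rep_inM i2)
    refine ⟨mk _ hM, fun j hj => ?_⟩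
    have hj1 := (lt_iff _ _).1 hj
    have hj2 : NN.lt i1 j := (lt_iff _ _).2 (by
      filter_upwards [hj1, rep_mk hM] with i e1 e2
      rw [e2] at e1
      exact lt_of_le_of_lt (le_max_left _ _) e1)
    have hj3 : NN.lt i2 j := (lt_iff _ _).2 (by
      filter_upwards [hj1, rep_mk hM] with i e1 e2
      rw [e2] at e1
      exact lt_of_le_of_lt (le_max_right _ _) e1)
    filter_upwards [hi1 j hj2, hi2 j hj3, rep_bb (F e)] with i e1 e2 e3
    rw [e3] at e1
    have e4 := dst_le (H i) (rep (m0 e) i) (Bl i (F e)) (rep n i) (rep j i)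
    have e5 : 2 ^ (Bl i e + 1) * cnt (dst (H i) (rep (m0 e) i) (Bl i (F e))) (rep j i) =
        2 * (2 ^ (Bl i e) * cnt (dst (H i) (rep (m0 e) i) (Bl i (F e))) (rep j i)) := by ring
    have e6 : 2 ^ (Bl i e + 1) * cnt (dst (H i) (rep (m0 e) i) (rep n i)) (rep j i) =
        2 * (2 ^ (Bl i e) * cnt (dst (H i) (rep (m0 e) i) (rep n i)) (rep j i)) := by ring
    have e7 := Nat.mul_le_mul_left (2 ^ (Bl i e)) e4
    rw [Nat.mul_add] at e7
    omega
  -- step 2: the parameter
  obtain ⟨f, hfM, hf⟩ := exists_coded F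
  -- step 3: the values of `mf`
  have step3 : ∀ eh : ℕ, ∀ᶠ i in (U : Filter ℕ), ∀ s, Bl i (F eh) ≤ s → ∀ k, k < Bl i eh →
      eel i k ≤ eh ∧ mf (f i) i s k = Bl i (F (eel i k)) := by
    intro eh
    have h2 : ∀ᶠ i in (U : Filter ℕ), ∀ e ∈ Finset.range (eh + 1), Ft (f i) e = F e :=
      (eventually_all_finset _).2 fun e _ => hf e
    filter_upwards [h2] with i h2 s hs k hk
    have h3 : eel i k ≤ eh := eel_le hk
    refine ⟨h3, mf_eq (h2 _ (Finset.mem_range.2 (by omega))) (hFge _) ?_⟩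
    exact ((Bl_strictMono i).monotone (hFmono.monotone h3)).trans hs
  -- step 4: `ok` holds from some stage on
  have step4 : ∀ h : MM, ∃ s0 : MM, ∀ s : MM, (∀ᶠ i in (U : Filter ℕ), rep s0 i ≤ rep s i) →
      ∀ᶠ i in (U : Filter ℕ), ok (H i) (f i) i (rep s i) (rep h i) := by
    intro h
    obtain ⟨n, hn⟩ := rep_inM h
    have hpair : ∀ e e' : ℕ, ∃ nn : ℕ, e < e' → ∀ j : MM,
        (∀ᶠ i in (U : Filter ℕ), Bl i nn < rep j i) → ∀ᶠ i in (U : Filter ℕ),
        2 ^ (Bl i e) * cnt (dst (H i) (Bl i (F e)) (Bl i (F e'))) (rep j i) ≤ rep j i := by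
      intro e e'
      by_cases hee : e < e'
      · obtain ⟨i0, hi0⟩ := step1 e (bb (F e')) ((lt_iff _ _).2 (by
          filter_upwards [rep_bb (F e), rep_bb (F e')] with i e1 e2
          rw [e1, e2]
          exact Bl_strictMono i (hFmono hee)))
        obtain ⟨nn, hnn⟩ := rep_inM i0
        refine ⟨nn, fun _ j hj => ?_⟩
        have h2 := hi0 j ((lt_iff _ _).2 (by
          filter_upwards [hj, hnn] with i e1 e2 using lt_of_le_of_lt e2 e1))
        filter_upwards [h2, rep_bb (F e')] with i e1 e2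
        rw [e2] at e1
        exact e1
      · exact ⟨0, fun h => absurd h hee⟩
    choose nn hnn using hpair
    set eh := n + 1 with heh
    set N0 : ℕ := (Finset.range (eh + 1) ×ˢ Finset.range (eh + 1)).sup fun q => nn q.1 q.2 with hN0
    refine ⟨bb (max N0 (F eh)), fun s hs => ?_⟩
    have hsM : InM fun i => 2 ^ (rep s i + 1) :=
      (rep_inM s).comp (f := fun x => 2 ^ (x + 1)) (by fun_prop)
    have h2 : ∀ᶠ i in (U : Filter ℕ), ∀ q ∈ Finset.range (eh + 1) ×ˢ Finset.range (eh + 1),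
        q.1 < q.2 → 2 ^ (Bl i q.1) * cnt (dst (H i) (Bl i (F q.1)) (Bl i (F q.2)))
          (2 ^ (rep s i + 1)) ≤ 2 ^ (rep s i + 1) := by
      refine (eventually_all_finset _).2 fun q hq => ?_
      by_cases hqq : q.1 < q.2
      · have h3 := hnn q.1 q.2 hqq (mk _ hsM) (by
          filter_upwards [rep_mk hsM, hs, rep_bb (max N0 (F eh))] with i e1 e2 e3
          rw [e1]
          rw [e3] at e2
          have e4 : nn q.1 q.2 ≤ max N0 (F eh) :=
            (Finset.le_sup (f := fun q : ℕ × ℕ => nn q.1 q.2) hq).trans (le_max_left _ _)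
          have e5 := (Bl_strictMono i).monotone e4
          have e6 : rep s i + 1 < 2 ^ (rep s i + 1) := Nat.lt_two_pow_self
          omega)
        filter_upwards [h3, rep_mk hsM] with i e1 e2 _
        rw [e2] at e1
        exact e1
      · exact Eventually.of_forall fun i h => absurd h hqq
    filter_upwards [h2, hs, rep_bb (max N0 (F eh)), step3 eh, hn] with i e1 e2 e3 e4 e5
    rw [e3] at e2
    have e6 : Bl i (F eh) ≤ rep s i :=
      ((Bl_strictMono i).monotone (le_max_right _ _)).trans e2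
    have e7 : rep h i < Bl i eh := lt_of_le_of_lt e5 (Bl_strictMono i (by omega))
    intro k' hk' k hk
    obtain ⟨a1, a2⟩ := e4 _ e6 k' (by omega)
    obtain ⟨b1, b2⟩ := e4 _ e6 k (by omega)
    rw [a2, b2]
    have hle : eel i k ≤ eel i k' := eel_le (hk.trans (eel_spec i k'))
    rcases Nat.lt_or_ge (eel i k) (eel i k') with hlt | hge
    · have h5 := e1 (eel i k, eel i k') (Finset.mem_product.2
        ⟨Finset.mem_range.2 (by show eel i k < eh + 1; omega),
          Finset.mem_range.2 (by show eel i k' < eh + 1; omega)⟩) hlt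
      have h6 := blk_le (dst (H i) (Bl i (F (eel i k))) (Bl i (F (eel i k')))) (rep s i)
      have h7 : 2 ^ k ≤ 2 ^ (Bl i (eel i k)) :=
        Nat.pow_le_pow_right (by norm_num) (eel_spec i k).le
      have h8 := (Nat.mul_le_mul h7 h6).trans h5
      have h9 : 2 ^ (rep s i + 1) = 2 * 2 ^ rep s i := by ring
      omega
    · have heq : eel i k = eel i k' := le_antisymm hle hge
      rw [heq]
      have h5 : blk (dst (H i) (Bl i (F (eel i k'))) (Bl i (F (eel i k')))) (rep s i) = 0 := by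
        unfold blk
        refine cnt_false fun x _ hx => ?_
        unfold dst at hx
        exact hx Iff.rfl
      rw [h5]
      omega
  -- step 5: the limit
  have hqM : InM fun i => Nat.pair (f i) i := hfM.pair InM.id
  have hAset := sets_of_UD c1 c0 hp hZ UD_Lim hqM
  set A : Set NN.M := {x | ∀ᶠ i in (U : Filter ℕ), Lim (H i) (Nat.pair (f i) i).unpair.1
    (Nat.pair (f i) i).unpair.2 (rep x i)} with hA
  have hAmem : ∀ x : NN.M, x ∈ A ↔ ∀ᶠ i in (U : Filter ℕ), Lim (H i) (f i) i (rep x i) := by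
    intro x
    rw [hA, Set.mem_ofPred_eq]
    simp only [Nat.unpair_pair]
  refine ⟨A, hAset, fun k0 => ?_⟩
  have hkM : InM fun i => rep k0 i + 4 := (rep_inM k0).add (InM.const 4)
  set k : MM := mk _ hkM with hk
  have hrk : ∀ᶠ i in (U : Filter ℕ), rep k i = rep k0 i + 4 := rep_mk hkM
  -- the block of `k`
  have hex : ∃ e, ∀ᶠ i in (U : Filter ℕ), rep k i < Bl i e := by
    obtain ⟨n, hn⟩ := rep_inM k
    refine ⟨n + 1, ?_⟩
    filter_upwards [hn] with i hi
    exact lt_of_le_of_lt hi (Bl_strictMono i (by omega))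
  obtain ⟨es, hes, hmin⟩ : ∃ e, (∀ᶠ i in (U : Filter ℕ), rep k i < Bl i e) ∧
      ∀ e' < e, ¬ ∀ᶠ i in (U : Filter ℕ), rep k i < Bl i e' :=
    ⟨Nat.find hex, Nat.find_spec hex, fun e' he' => Nat.find_min hex he'⟩
  have heel : ∀ᶠ i in (U : Filter ℕ), eel i (rep k i) = es := by
    have h2 : ∀ᶠ i in (U : Filter ℕ), ∀ e ∈ Finset.range es, ¬ rep k i < Bl i e :=
      (eventually_all_finset _).2 fun e he => ev_not.2 (hmin e (Finset.mem_range.1 he))
    filter_upwards [hes, h2] with i e1 e2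
    refine le_antisymm (eel_le e1) ?_
    by_contra hcon
    push Not at hcon
    exact e2 _ (Finset.mem_range.2 hcon) (eel_spec i _)
  -- the block inequality between the row `Bl i (F es)` and the limit
  obtain ⟨s0, hs0⟩ := step4 k
  have hs1M : InM fun i => max (rep s0 i) (max (Bl i (F es)) (rep k i)) :=
    (rep_inM s0).sup ((InM.bl (F es)).sup (rep_inM k))
  set D : ℕ → ℕ → Prop := fun i x => ¬ (prn (Bl i (F es)) x ∈ H i ↔ Lim (H i) (f i) i x) with hD
  have hblk : ∀ s : MM, (∀ᶠ i in (U : Filter ℕ),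
      max (rep s0 i) (max (Bl i (F es)) (rep k i)) ≤ rep s i) → ∀ᶠ i in (U : Filter ℕ),
      2 ^ rep k i * blk (D i) (rep s i) ≤ 4 * 2 ^ rep s i := by
    intro s hs
    have h2 := hs0 s (by filter_upwards [hs] with i hi using (le_max_left _ _).trans hi)
    filter_upwards [h2, hs, heel, step3 es, hes] with i e1 e2 e3 e4 e5
    have e6 : Bl i (F es) ≤ rep s i :=
      (le_max_left _ _).trans ((le_max_right _ _).trans e2)
    have e7 : rep k i ≤ rep s i :=
      (le_max_right _ _).trans ((le_max_right _ _).trans e2)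
    obtain ⟨g, g1, g2, g3⟩ := exists_top (H i) (f i) i (rep s i)
    obtain ⟨-, e8⟩ := e4 _ e6 _ e5
    rw [e3] at e8
    have hkg : rep k i ≤ g := by
      by_contra hcon
      push Not at hcon
      exact g3 _ (by omega) hcon e1
    have hbl : blk (D i) (rep s i) ≤ blk (dst (H i) (mf (f i) i (rep s i) (rep k i))
        (mf (f i) i (rep s i) g)) (rep s i) := by
      unfold blk
      refine cnt_mono fun y hy h3 => ?_
      simp only [hD] at h3
      rw [Lim_iff hy g1 g2 g3] at h3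
      unfold dst
      rw [e8]
      exact h3
    rcases lt_or_eq_of_le hkg with hlt | heq
    · exact (Nat.mul_le_mul_left _ hbl).trans (g2 g (by omega) _ hlt)
    · have h5 : blk (dst (H i) (mf (f i) i (rep s i) (rep k i))
        (mf (f i) i (rep s i) g)) (rep s i) = 0 := by
        unfold blk
        refine cnt_false fun x _ hx => ?_
        unfold dst at hx
        rw [heq] at hx
        exact hx Iff.rfl
      rw [h5] at hbl
      have h6 : blk (D i) (rep s i) = 0 := by omega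
      rw [h6]
      omega
  have hblk2 : ∀ j : MM, ∀ᶠ i in (U : Filter ℕ), ∀ t,
      max (rep s0 i) (max (Bl i (F es)) (rep k i)) ≤ t → t ≤ rep j i →
      2 ^ rep k i * blk (D i) t ≤ 4 * 2 ^ t := by
    intro j
    by_contra hcon
    have hcon := ev_not.2 hcon
    have h3 : ∀ᶠ i in (U : Filter ℕ), ∃ t,
        max (rep s0 i) (max (Bl i (F es)) (rep k i)) ≤ t ∧ t ≤ rep j i ∧
        ¬ 2 ^ rep k i * blk (D i) t ≤ 4 * 2 ^ t := by
      filter_upwards [hcon] with i hi
      by_contra h4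
      apply hi
      intro t h5 h6
      by_contra h7
      exact h4 ⟨t, h5, h6, h7⟩
    obtain ⟨t, ht⟩ := h3.choice
    have htM : InM t := (rep_inM j).mono (by filter_upwards [ht] with i hi using hi.2.1)
    have h4 := hblk (mk t htM) (by
      filter_upwards [ht, rep_mk htM] with i e1 e2
      rw [e2]
      exact e1.1)
    refine ev_false (h4.and (ht.and (rep_mk htM))) ?_
    rintro i ⟨e1, e2, e3⟩
    rw [e3] at e1
    exact e2.2.2 e1
  -- step 6: the estimate
  refine ⟨bb (F es), fun n hn => ?_⟩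
  obtain ⟨i1, hi1⟩ := step1 es n hn
  have hi0M : InM fun i => max (rep i1 i) (2 ^ (rep k i + max (rep s0 i)
      (max (Bl i (F es)) (rep k i)))) :=
    (rep_inM i1).sup (((rep_inM k).add hs1M).comp (f := fun x => 2 ^ x) (by fun_prop))
  refine ⟨mk _ hi0M, fun j hj => ?_⟩
  have hj' := (lt_iff _ _).1 hj
  have hY : ∀ x : MM, x ∈ symmDiff (Row NN Z n) A ↔ ∀ᶠ i in (U : Filter ℕ),
      (fun X (a : ℕ × ℕ) => ¬ (prn a.1.unpair.1 a.2 ∈ X ↔
        Lim X a.1.unpair.2.unpair.1 a.1.unpair.2.unpair.2 a.2)) (hat A1 p i)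
        (Nat.pair (rep n i) (Nat.pair (f i) i), rep x i) := by
    intro x
    simp only [Nat.unpair_pair]
    rw [symm_iff, row_mem hZ, hAmem, ev_not, ev_iff]
  refine (dens_iff c1 c0 hp hZ (q := fun i => Nat.pair (rep n i) (Nat.pair (f i) i))
    ((rep_inM n).pair hqM) (S := fun X (a : ℕ × ℕ) => ¬ (prn a.1.unpair.1 a.2 ∈ X ↔
        Lim X a.1.unpair.2.unpair.1 a.1.unpair.2.unpair.2 a.2)) ?_ hY j k0).2 ?_
  · refine UD.not (UD.iff (UD.mem (by fun_prop)) ?_)
    exact UD_Lim.comp (f := fun a : ℕ × ℕ => (a.1.unpair.2, a.2)) (by fun_prop)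
  · have h5 := hi1 j ((lt_iff _ _).2 (by
      filter_upwards [hj', rep_mk hi0M] with i e1 e2
      rw [e2] at e1
      exact lt_of_le_of_lt (le_max_left _ _) e1))
    filter_upwards [h5, hblk2 j, hj', rep_mk hi0M, hrk, hes] with i e1 e2 e3 e4 e5 e6
    simp only [Nat.unpair_pair]
    rw [e4] at e3
    have e7 : 2 ^ (rep k i + max (rep s0 i) (max (Bl i (F es)) (rep k i))) < rep j i :=
      lt_of_le_of_lt (le_max_right _ _) e3
    have e8 := cnt_block (P := D i) (k := rep k i) (j := rep j i) (by omega) e2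
    rw [← pow_add] at e8
    have e9 : 2 ^ rep k i ≤ 2 ^ Bl i es := Nat.pow_le_pow_right (by norm_num) e6.le
    have e10 := (Nat.mul_le_mul_right _ e9).trans e1
    have e11 : cnt (fun x => ¬ (prn (rep n i) x ∈ hat A1 p i ↔ Lim (hat A1 p i) (f i) i x))
        (rep j i) ≤ cnt (dst (H i) (Bl i (F es)) (rep n i)) (rep j i) + cnt (D i) (rep j i) := by
      refine cnt_or fun x _ h => ?_
      simp only [hD, dst, hH]
      tauto
    have e12 := Nat.mul_le_mul_left (2 ^ rep k i) e11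
    rw [Nat.mul_add] at e12
    rw [e5, pow_add] at e12 e10 e8
    have e13 : 2 ^ rep k0 i * 2 ^ 4 * cnt (fun x => ¬ (prn (rep n i) x ∈ hat A1 p i ↔
        Lim (hat A1 p i) (f i) i x)) (rep j i) = 16 * (2 ^ rep k0 i * cnt (fun x =>
        ¬ (prn (rep n i) x ∈ hat A1 p i ↔ Lim (hat A1 p i) (f i) i x)) (rep j i)) := by ring
    rw [e13] at e12
    rw [e5] at e7
    omega

end main

end Pool.Agent.H869R3.DM
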