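import Pool.Agent.Helper617.RM.HLDefs

/-!
Completeness of the density metric, the domination principle and arithmetical induction in a
structure for second-order arithmetic.
-/

namespace Pool.Agent.H869R3.DM

open Pool.Agent.Helper617.RM

universe u

variable (N : L2Structure.{u})

/-- `c` is the counting function of `X`, that is `c j = |{x < j | x ∈ X}|`, and it exists in the
structure (it is given by its recursion equations). -/
structure IsCounting (X : Set N.M) (c : N.M → N.M) : Prop where
  fn : FunIn N c
  zero : c N.zero = N.zero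
  succ_mem : ∀ j, j ∈ X → c (N.add j N.one) = N.add (c j) N.one
  succ_not_mem : ∀ j, j ∉ X → c (N.add j N.one) = c j

/-- `e` is the function `k ↦ 2 ^ k`, and it exists in the structure. -/
structure IsPowTwo (e : N.M → N.M) : Prop where
  fn : FunIn N e
  zero : e N.zero = N.one
  succ : ∀ k, e (N.add k N.one) = N.add (e k) (e k)

/-- `ρ_j(X) ≤ 2 ^ (-k)`, where `ρ_j(X) = |{x < j | x ∈ X}| / j`; it is stated in the form
`2 ^ k · |{x < j | x ∈ X}| ≤ j`. -/
def DensLe (X : Set N.M) (j k : N.M) : Prop :=
  ∃ c e : N.M → N.M, IsCounting N X c ∧ IsPowTwo N e ∧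
    (N.lt (N.mul (e k) (c j)) j ∨ N.mul (e k) (c j) = j)

/-- The `n`-th member `A_n = {x | (n, x) ∈ A}` of the sequence of sets coded by `A`. -/
def Row (A : Set N.M) (n : N.M) : Set N.M := {x | N.pair n x ∈ A}

/-- The sequence of sets coded by `A` is `δ`-Cauchy. -/
def IsDCauchy (A : Set N.M) : Prop :=
  ∀ k, ∃ m, ∀ n, N.lt m n → ∃ i, ∀ j, N.lt i j →
    DensLe N (symmDiff (Row N A m) (Row N A n)) j k

/-- The set `B` is a `δ`-limit of the sequence of sets coded by `A`. -/
def IsDLimit (A B : Set N.M) : Prop :=
  ∀ k, ∃ m, ∀ n, N.lt m n → ∃ i, ∀ j, N.lt i j →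
    DensLe N (symmDiff (Row N A n) B) j k

/-- Completeness of the density metric: every `δ`-Cauchy sequence has a limit. -/
def DensityComplete : Prop := ∀ A ∈ N.Sets, IsDCauchy N A → ∃ B ∈ N.Sets, IsDLimit N A B

/-- The structure `N` in which `X` is the only set: its `Δ⁰₀` formulas are those with number
parameters and `X` as the only set parameter. -/
def only (X : Set N.M) : L2Structure.{u} := { N with Sets := {X} }

/-- The function `g` is `X`-computable: its graph is defined by a `Σ⁰₁` formula with number
parameters and no set parameter besides `X`. -/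
def ComputableIn (X : Set N.M) (g : N.M → N.M) : Prop :=
  ∃ (θ : Delta0 (only N X)) (v : ℕ → N.M), ∀ x y,
    y = g x ↔ ∃ k, θ.Holds (cons k (cons y (cons x v)))

/-- The domination principle: for every `X` there is a function which dominates every
`X`-computable function. -/
def DOM : Prop :=
  ∀ X ∈ N.Sets, ∃ f : N.M → N.M, FunIn N f ∧
    ∀ g : N.M → N.M, ComputableIn N X g → ∃ b, ∀ n, N.lt b n → (N.lt (g n) (f n) ∨ g n = f n)

/-- The induction scheme for all arithmetical formulas with parameters. -/
def ArithInd : Prop :=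
  ∀ (φ : AForm N) (v : ℕ → N.M), φ.Holds (cons N.zero v) →
    (∀ n, φ.Holds (cons n v) → φ.Holds (cons (N.add n N.one) v)) → ∀ n, φ.Holds (cons n v)

end Pool.Agent.H869R3.DM
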