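import Pool.Agent.H869R3.DM.Use
import Pool.Agent.H869R3.DM.Defs
import Pool.Agent.Helper617.RM.Coding

/-!
Densities of sets of the structure, computed in the ultrapower.
-/

namespace Pool.Agent.H869R3.DM

open Pool.Agent.Helper446 Pool.Agent.Helper446.RE Encodable Filter
open Pool.Agent.Helper617.RM

universe u

section general

variable {N : L2Structure.{u}} [IsModelRCA0 N]

theorem fun_D0 {f : N.M → N.M} (h : FunIn N f) : D0 (fun v : Ctx N => v 1 = f (v 0)) :=
  D0.of_codeRel (R := fun x y => y = f x) h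

theorem eq_S1 {f g : N.M → N.M} (hf : FunIn N f) (hg : FunIn N g) :
    S1 (fun v : Ctx N => f (v 0) = g (v 0)) := by
  refine S1.congr (R := fun v => ∃ y, y = f (v 0) ∧ y = g (v 0)) ?_ fun v => ?_
  · refine S1.ex (D0.S1 (D0.and ?_ ?_))
    · exact D0.rel (R := fun x y => y = f x) (fun_D0 hf) (Tm.var 1) (Tm.var 0)
    · exact D0.rel (R := fun x y => y = g x) (fun_D0 hg) (Tm.var 1) (Tm.var 0)
  · constructor
    · rintro ⟨y, h1, h2⟩; exact h1.symm.trans h2
    · intro h; exact ⟨_, rfl, h⟩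

theorem counting_unique {Y : Set N.M} {c c' : N.M → N.M} (h : IsCounting N Y c)
    (h' : IsCounting N Y c') : c = c' := by
  funext j
  refine ind_S1 (P := fun j => c j = c' j) (eq_S1 h.fn h'.fn) ?_ (fun j ih => ?_) j
  · exact h.zero.trans h'.zero.symm
  · by_cases hj : j ∈ Y
    · exact (h.succ_mem j hj).trans ((congrArg (fun z => N.add z N.one) ih).trans
        (h'.succ_mem j hj).symm)
    · exact (h.succ_not_mem j hj).trans (ih.trans (h'.succ_not_mem j hj).symm)

theorem pow_unique {e e' : N.M → N.M} (h : IsPowTwo N e) (h' : IsPowTwo N e') : e = e' := by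
  funext j
  refine ind_S1 (P := fun j => e j = e' j) (eq_S1 h.fn h'.fn) ?_ (fun j ih => ?_) j
  · exact h.zero.trans h'.zero.symm
  · exact (h.succ j).trans ((congrArg (fun z => N.add z z) ih).trans (h'.succ j).symm)

end general

/-- the pairing function on the natural numbers -/
def prn (a b : ℕ) : ℕ := (a + b) * (a + b) + a

theorem prn_inj {a b c d : ℕ} (h : prn a b = prn c d) : a = c ∧ b = d := by
  unfold prn at h
  have h1 : a + b = c + d := by
    rcases lt_trichotomy (a + b) (c + d) with hlt | heq | hgt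
    · exfalso; nlinarith
    · exact heq
    · exfalso; nlinarith
  rw [h1] at h
  constructor <;> omega

@[fun_prop] theorem c_prn {α : Type*} [Primcodable α] {f g : α → ℕ} (hf : Computable f)
    (hg : Computable g) : Computable fun a => prn (f a) (g a) := by
  unfold prn
  fun_prop

theorem fst_le_prn (a b : ℕ) : a ≤ prn a b := by unfold prn; nlinarith
theorem snd_le_prn (a b : ℕ) : b ≤ prn a b := by unfold prn; nlinarith

theorem rep_pair (x y : NN.M) :
    ∀ᶠ i in (U : Filter ℕ), rep (NN.pair x y) i = prn (rep x i) (rep y i) := by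
  unfold L2Structure.pair prn
  filter_upwards [rep_add (NN.mul (NN.add x y) (NN.add x y)) x,
    rep_mul (NN.add x y) (NN.add x y), rep_add x y] with i e1 e2 e3
  rw [e1, e2, e3]

theorem InM.prn {x y : ℕ → ℕ} (hx : InM x) (hy : InM y) : InM fun i => prn (x i) (y i) :=
  hx.comp2 hy (f := DM.prn) (by fun_prop)

theorem mk_rep (x : MM) : mk (rep x) (rep_inM x) = x := by
  rw [mk_eq]; simp

theorem le_iff' (x y : NN.M) : (NN.lt x y ∨ x = y) ↔ ∀ᶠ i in (U : Filter ℕ), rep x i ≤ rep y i := by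
  rw [lt_iff, nn_ext, ← ev_or]
  refine ev_congr (Eventually.of_forall fun i => ?_)
  omega

/-- a function of the structure given by functions on the natural numbers -/
theorem fun_in {X : Set MM} {A1 A0 : ℕ → ℕ → Prop} {p : ℕ → ℕ}
    (c1 : REPred fun q : ℕ × ℕ => A1 q.1 q.2)
    (c0 : REPred fun q : ℕ × ℕ => A0 q.1 q.2) (hp : InM p) (h : Computes X A1 A0 p)
    {q : ℕ → ℕ} (hq : InM q) {F : Set ℕ → ℕ × ℕ → ℕ} (hF : UF F) {c : NN.M → NN.M}
    (hc : ∀ x, ∀ᶠ i in (U : Filter ℕ), rep (c x) i = F (hat A1 p i) (q i, rep x i)) :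
    FunIn NN c := by
  have hS : UD fun X (a : ℕ × ℕ) => ∃ x, x < a.2 + 1 ∧ ∃ y, y < a.2 + 1 ∧
      (F X (a.1, x) = y ∧ a.2 = prn x y) := by
    refine UD.ex (S := fun X (a : ℕ × ℕ) x => ∃ y, y < a.2 + 1 ∧
      (F X (a.1, x) = y ∧ a.2 = prn x y)) ?_ (by fun_prop)
    refine UD.ex (S := fun X (a : (ℕ × ℕ) × ℕ) y => F X (a.1.1, a.2) = y ∧ a.1.2 = prn a.2 y) ?_
      (by fun_prop)
    refine UD.and ?_ (UD.of_cp (cp_eq ?_ ?_))
    · have h1 : UF fun X (a : ((ℕ × ℕ) × ℕ) × ℕ) => F X (a.1.1.1, a.1.2) := by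
        obtain ⟨u, hu, Φ, hΦ, hF⟩ := hF
        exact ⟨fun a => u (a.1.1.1, a.1.2), hu.comp (g := fun a : ((ℕ × ℕ) × ℕ) × ℕ =>
          (a.1.1.1, a.1.2)) (by fun_prop), fun x => Φ ((x.1.1.1.1, x.1.1.2), x.2),
          hΦ.comp (g := fun x : (((ℕ × ℕ) × ℕ) × ℕ) × ℕ => ((x.1.1.1.1, x.1.1.2), x.2))
            (by fun_prop), fun X a n hn => hF X _ n hn⟩
      exact h1.rel (R := fun a z => z = a.2) (cp_eq (by fun_prop) (by fun_prop))
    · fun_prop
    · fun_prop
  have h1 := sets_of_UD c1 c0 hp h hS hq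
  unfold FunIn RelIn
  convert h1 using 1
  ext z
  constructor
  · rintro ⟨x, y, rfl, hz⟩
    show ∀ᶠ i in (U : Filter ℕ), _
    filter_upwards [nn_ext.1 hz, rep_pair x (c x), hc x] with i e1 e2 e3
    have e4 : rep z i = prn (rep x i) (rep (c x) i) := e1.trans e2
    refine ⟨rep x i, ?_, rep (c x) i, ?_, e3.symm, e4⟩
    · have := fst_le_prn (rep x i) (rep (c x) i); omega
    · have := snd_le_prn (rep x i) (rep (c x) i); omega
  · intro hz
    have hz' : ∀ᶠ i in (U : Filter ℕ), ∃ xy : ℕ × ℕ, xy.1 < rep z i + 1 ∧ xy.2 < rep z i + 1 ∧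
        (F (hat A1 p i) (q i, xy.1) = xy.2 ∧ rep z i = prn xy.1 xy.2) := by
      filter_upwards [hz] with i hi
      obtain ⟨x, hx, y, hy, h3⟩ := hi
      exact ⟨(x, y), hx, hy, h3⟩
    obtain ⟨xy, hxy⟩ := hz'.choice
    have i1 : InM fun i => (xy i).1 := (rep_inM z).mono (by
      filter_upwards [hxy] with i hi using Nat.lt_succ_iff.1 hi.1)
    refine ⟨mk _ i1, c (mk _ i1), rfl, nn_ext.2 ?_⟩
    filter_upwards [hxy, rep_pair (mk _ i1) (c (mk _ i1)), hc (mk _ i1), rep_mk i1]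
      with i e1 e2 e3 e4
    rw [e2, e3, e4, e1.2.2.1, e1.2.2.2]

theorem cnt_le (P : ℕ → Prop) (n : ℕ) : cnt P n ≤ n := by
  classical
  exact Nat.count_le P

theorem computes_empty : Computes (∅ : Set MM) (fun _ _ => False) (fun _ _ => True)
    (fun _ => 0) := by
  refine fun x => ⟨⟨fun h => absurd h (Set.notMem_empty x), fun h => ?_⟩, ?_⟩
  · exact (ev_false h fun i hi => hi).elim
  · simp

theorem powTwo_NN : IsPowTwo NN (fun k => mk (fun i => 2 ^ rep k i)
    ((rep_inM k).comp (f := fun n => 2 ^ n) (by fun_prop))) := by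
  have hr : ∀ k : MM, ∀ᶠ i in (U : Filter ℕ), rep (mk (fun i => 2 ^ rep k i)
      ((rep_inM k).comp (f := fun n => 2 ^ n) (by fun_prop))) i = 2 ^ rep k i := fun k => rep_mk _
  refine ⟨?_, ?_, fun k => ?_⟩
  · refine fun_in (X := ∅) (A1 := fun _ _ => False) (A0 := fun _ _ => True) (p := fun _ => 0)
      (RE.const False) (RE.const True) (InM.const 0) computes_empty (InM.const 0)
      (F := fun _ a => 2 ^ a.2) ?_ (fun x => hr x)
    exact ⟨fun _ => 0, by fun_prop, fun a => 2 ^ a.1.2, by fun_prop, fun _ _ _ _ => rfl⟩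
  · rw [nn_ext]
    filter_upwards [hr NN.zero, rep_zero, rep_one] with i e1 e2 e3
    rw [e1, e2, e3, pow_zero]
  · rw [nn_ext]
    filter_upwards [hr (NN.add k NN.one), rep_add k NN.one, rep_one, rep_add (mk _ _) (mk _ _),
      hr k] with i e1 e2 e3 e4 e5
    rw [e1, e4, e5, e2, e3, pow_succ]
    ring

theorem dens_iff {X : Set MM} {A1 A0 : ℕ → ℕ → Prop} {p : ℕ → ℕ}
    (c1 : REPred fun q : ℕ × ℕ => A1 q.1 q.2)
    (c0 : REPred fun q : ℕ × ℕ => A0 q.1 q.2) (hp : InM p) (h : Computes X A1 A0 p)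
    {q : ℕ → ℕ} (hq : InM q) {S : Set ℕ → ℕ × ℕ → Prop} (hS : UD S) {Y : Set NN.M}
    (hY : ∀ x, x ∈ Y ↔ ∀ᶠ i in (U : Filter ℕ), S (hat A1 p i) (q i, rep x i)) (j k : NN.M) :
    DensLe NN Y j k ↔ ∀ᶠ i in (U : Filter ℕ),
      2 ^ rep k i * cnt (fun x => S (hat A1 p i) (q i, x)) (rep j i) ≤ rep j i := by
  set c : NN.M → NN.M := fun j => mk (fun i => cnt (fun x => S (hat A1 p i) (q i, x)) (rep j i))
    ((rep_inM j).mono (Eventually.of_forall fun i => cnt_le _ _)) with hcdef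
  have hr : ∀ j : NN.M, ∀ᶠ i in (U : Filter ℕ),
      rep (c j) i = cnt (fun x => S (hat A1 p i) (q i, x)) (rep j i) := fun j => rep_mk _
  have hc : IsCounting NN Y c := by
    refine ⟨?_, ?_, fun j hj => ?_, fun j hj => ?_⟩
    · refine fun_in c1 c0 hp h hq (F := fun X a => cnt (fun x => S X (a.1, x)) a.2) ?_
        (fun x => hr x)
      refine UF.cnt (S := fun X (a : ℕ × ℕ) x => S X (a.1, x)) ?_ (by fun_prop)
      exact hS.comp (f := fun x : (ℕ × ℕ) × ℕ => (x.1.1, x.2)) (by fun_prop)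
    · rw [nn_ext]
      filter_upwards [hr NN.zero, rep_zero] with i e1 e2
      rw [e1, e2, cnt_zero]
    · rw [nn_ext]
      filter_upwards [hr (NN.add j NN.one), hr j, rep_add j NN.one, rep_one,
        rep_add (c j) NN.one, (hY j).1 hj] with i e1 e2 e3 e4 e5 e6
      rw [e1, e5, e2, e3, e4, cnt_succ, if_pos e6]
    · have hj := ev_not.2 (fun h' => hj ((hY j).2 h'))
      rw [nn_ext]
      filter_upwards [hr (NN.add j NN.one), hr j, rep_add j NN.one, rep_one, hj]
        with i e1 e2 e3 e4 e6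
      rw [e1, e2, e3, e4, cnt_succ, if_neg e6, Nat.add_zero]
  have hmul : ∀ j k : NN.M, ∀ᶠ i in (U : Filter ℕ), rep (NN.mul (mk (fun i => 2 ^ rep k i)
      ((rep_inM k).comp (f := fun n => 2 ^ n) (by fun_prop))) (c j)) i =
      2 ^ rep k i * cnt (fun x => S (hat A1 p i) (q i, x)) (rep j i) := by
    intro j k
    filter_upwards [rep_mul (mk (fun i => 2 ^ rep k i)
      ((rep_inM k).comp (f := fun n => 2 ^ n) (by fun_prop))) (c j), hr j,
      rep_mk ((rep_inM k).comp (f := fun n => 2 ^ n) (by fun_prop))] with i e1 e2 e3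
    rw [e1, e2, e3]
  constructor
  · rintro ⟨c', e', h1, h2, h3⟩
    have e1 : c' = c := counting_unique h1 hc
    have e2 := pow_unique h2 powTwo_NN
    subst e1
    subst e2
    have h4 := (le_iff' _ _).1 h3
    filter_upwards [h4, hmul j k] with i a1 a2
    rw [← a2]
    exact a1
  · intro h3
    refine ⟨c, _, hc, powTwo_NN, (le_iff' _ _).2 ?_⟩
    filter_upwards [h3, hmul j k] with i a1 a2
    rw [a2]
    exact a1

end Pool.Agent.H869R3.DM
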