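import Pool.Agent.H869R3.DM.Dens

/-!
The construction of the limit of a `δ`-Cauchy sequence, for subsets of the natural numbers.
-/

namespace Pool.Agent.H869R3.DM

open Pool.Agent.Helper446 Pool.Agent.Helper446.RE Encodable Filter
open Pool.Agent.Helper617.RM

@[fun_prop] theorem c_getD {α β : Type*} [Primcodable α] [Primcodable β] {f : α → Option β}
    {g : α → β} (hf : Computable f) (hg : Computable g) : Computable fun a => (f a).getD (g a) :=
  Computable.option_getD hf hg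

/-- decoding of a finite sequence -/
def Ft (f e : ℕ) : ℕ := ((((decode f : Option (List ℕ)).getD [])[e]?).getD 0)

@[fun_prop] theorem c_Ft {α : Type*} [Primcodable α] {f g : α → ℕ} (hf : Computable f)
    (hg : Computable g) : Computable fun a => Ft (f a) (g a) := by
  unfold Ft
  fun_prop

theorem ei_ex (x0 s k : ℕ) : ∃ e, k < B x0 s e := ⟨k + 1, le_B x0 s (k + 1)⟩

/-- the block of `k` at stage `s` -/
noncomputable def ei (x0 s k : ℕ) : ℕ := Nat.find (ei_ex x0 s k)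

@[fun_prop] theorem c_ei {α : Type*} [Primcodable α] {f g h : α → ℕ} (hf : Computable f)
    (hg : Computable g) (hh : Computable h) : Computable fun a => ei (f a) (g a) (h a) := by
  refine c_find (p := fun a e => h a < B (f a) (g a) e) ?_ (fun a => Nat.find_spec (ei_ex _ _ _))
    fun a k hk => Nat.find_min (ei_ex _ _ _) hk
  exact cp_lt (by fun_prop) (by fun_prop)

/-- the modulus at stage `s` -/
noncomputable def mf (f x0 s k : ℕ) : ℕ := B x0 s (Ft f (ei x0 s k))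

@[fun_prop] theorem c_mf {α : Type*} [Primcodable α] {f g h k : α → ℕ} (hf : Computable f)
    (hg : Computable g) (hh : Computable h) (hk : Computable k) :
    Computable fun a => mf (f a) (g a) (h a) (k a) := by
  unfold mf
  fun_prop

theorem eel_ex (x0 k : ℕ) : ∃ e, k < Bl x0 e :=
  ⟨k + 1, (Bl_strictMono x0).le_apply (x := k + 1)⟩

/-- the block of `k` -/
noncomputable def eel (x0 k : ℕ) : ℕ := Nat.find (eel_ex x0 k)

theorem eel_spec (x0 k : ℕ) : k < Bl x0 (eel x0 k) := Nat.find_spec (eel_ex x0 k)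

theorem eel_le {x0 k e : ℕ} (h : k < Bl x0 e) : eel x0 k ≤ e := Nat.find_min' (eel_ex x0 k) h

theorem ei_eq {x0 s k : ℕ} (h : Bl x0 (eel x0 k) ≤ s) : ei x0 s k = eel x0 k := by
  have h1 : ∀ e, e ≤ eel x0 k → B x0 s e = Bl x0 e := fun e he =>
    B_eq (((Bl_strictMono x0).monotone he).trans h)
  refine le_antisymm (Nat.find_min' (ei_ex x0 s k) ?_) ?_
  · rw [h1 _ le_rfl]
    exact eel_spec x0 k
  · by_contra hcon
    push Not at hcon
    have h2 : k < B x0 s (ei x0 s k) := Nat.find_spec (ei_ex x0 s k)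
    rw [h1 _ hcon.le] at h2
    exact absurd (eel_le h2) (not_le.2 hcon)

theorem mf_eq {f x0 s k : ℕ} {F : ℕ → ℕ} (hF : Ft f (eel x0 k) = F (eel x0 k))
    (h1 : eel x0 k ≤ F (eel x0 k)) (h2 : Bl x0 (F (eel x0 k)) ≤ s) :
    mf f x0 s k = Bl x0 (F (eel x0 k)) := by
  have h3 : Bl x0 (eel x0 k) ≤ s := ((Bl_strictMono x0).monotone h1).trans h2
  unfold mf
  rw [ei_eq h3, hF, B_eq h2]

/-- the points where the rows `a` and `b` differ -/
def dst (X : Set ℕ) (a b x : ℕ) : Prop := ¬ (prn a x ∈ X ↔ prn b x ∈ X)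

/-- the number of elements in the `s`-th dyadic interval -/
noncomputable def blk (P : ℕ → Prop) (s : ℕ) : ℕ := cnt (fun y => P (2 ^ s + y)) (2 ^ s)

/-- the condition on the indices up to `h` at stage `s` -/
def ok (X : Set ℕ) (f x0 s h : ℕ) : Prop :=
  ∀ k' < h + 1, ∀ k < k', 2 ^ k * blk (dst X (mf f x0 s k) (mf f x0 s k')) s ≤ 4 * 2 ^ s

theorem ok_zero (X : Set ℕ) (f x0 s : ℕ) : ok X f x0 s 0 := by
  intro k' hk' k hk
  omega

theorem UD_dst {α : Type} [Primcodable α] {a b x : α → ℕ} (ha : Computable a)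
    (hb : Computable b) (hx : Computable x) : UD fun X q => dst X (a q) (b q) (x q) := by
  unfold dst
  exact ((UD.mem (f := fun q => prn (a q) (x q)) (by fun_prop)).iff
    (UD.mem (f := fun q => prn (b q) (x q)) (by fun_prop))).not

theorem UD_ok {α : Type} [Primcodable α] {f x0 s h : α → ℕ} (hf : Computable f)
    (hx : Computable x0) (hs : Computable s) (hh : Computable h) :
    UD fun X a => ok X (f a) (x0 a) (s a) (h a) := by
  unfold ok
  refine UD.all (S := fun X a k' => ∀ k < k', 2 ^ k * blk (dst X (mf (f a) (x0 a) (s a) k)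
    (mf (f a) (x0 a) (s a) k')) (s a) ≤ 4 * 2 ^ (s a)) ?_ (by fun_prop)
  refine UD.all (S := fun X (a : α × ℕ) k => 2 ^ k * blk (dst X (mf (f a.1) (x0 a.1) (s a.1) k)
    (mf (f a.1) (x0 a.1) (s a.1) a.2)) (s a.1) ≤ 4 * 2 ^ (s a.1)) ?_ (by fun_prop)
  have h1 : UF fun X (a : (α × ℕ) × ℕ) => blk (dst X (mf (f a.1.1) (x0 a.1.1) (s a.1.1) a.2)
      (mf (f a.1.1) (x0 a.1.1) (s a.1.1) a.1.2)) (s a.1.1) := by
    unfold blk
    refine UF.cnt (S := fun X (a : (α × ℕ) × ℕ) y => dst X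
      (mf (f a.1.1) (x0 a.1.1) (s a.1.1) a.2) (mf (f a.1.1) (x0 a.1.1) (s a.1.1) a.1.2)
      (2 ^ (s a.1.1) + y)) ?_ (by fun_prop)
    refine UD_dst ?_ ?_ ?_ <;> fun_prop
  exact h1.rel (R := fun a z => 2 ^ a.2 * z ≤ 4 * 2 ^ (s a.1.1))
    (cp_le (by fun_prop) (by fun_prop))

/-- the dyadic interval of `x` -/
def lg (x : ℕ) : ℕ := Nat.log 2 x

@[fun_prop] theorem c_lg {α : Type*} [Primcodable α] {f : α → ℕ} (hf : Computable f) :
    Computable fun a => lg (f a) := by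
  refine c_find (p := fun a s => f a < 2 ^ (s + 1)) ?_ (fun a => ?_) fun a k hk => ?_
  · exact cp_lt (by fun_prop) (by fun_prop)
  · exact Nat.lt_pow_succ_log_self (by norm_num) _
  · unfold lg at hk
    rw [not_lt]
    refine Nat.pow_le_of_le_log (fun h0 => ?_) (by omega)
    rw [h0] at hk
    simp at hk

theorem lg_block {s y : ℕ} (hy : y < 2 ^ s) : lg (2 ^ s + y) = s := by
  unfold lg
  refine Nat.log_eq_of_pow_le_of_lt_pow (by omega) ?_
  rw [pow_succ]
  omega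

/-- the limit -/
def Lim (X : Set ℕ) (f x0 x : ℕ) : Prop :=
  ∃ h, h < lg x + 1 ∧ ((ok X f x0 (lg x) h ∧ ∀ h' < lg x + 1, h < h' → ¬ ok X f x0 (lg x) h') ∧
    prn (mf f x0 (lg x) h) x ∈ X)

theorem UD_Lim : UD fun X (a : ℕ × ℕ) => Lim X a.1.unpair.1 a.1.unpair.2 a.2 := by
  unfold Lim
  refine UD.ex (S := fun X (a : ℕ × ℕ) h => (ok X a.1.unpair.1 a.1.unpair.2 (lg a.2) h ∧
    ∀ h' < lg a.2 + 1, h < h' → ¬ ok X a.1.unpair.1 a.1.unpair.2 (lg a.2) h') ∧
    prn (mf a.1.unpair.1 a.1.unpair.2 (lg a.2) h) a.2 ∈ X) ?_ (by fun_prop)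
  refine UD.and (UD.and (UD_ok ?_ ?_ ?_ ?_) ?_) (UD.mem ?_)
  · fun_prop
  · fun_prop
  · fun_prop
  · fun_prop
  · refine UD.all (S := fun X (a : (ℕ × ℕ) × ℕ) h' => a.2 < h' →
      ¬ ok X a.1.1.unpair.1 a.1.1.unpair.2 (lg a.1.2) h') ?_ (by fun_prop)
    refine UD.imp (UD.of_cp (cp_lt ?_ ?_)) (UD.not (UD_ok ?_ ?_ ?_ ?_)) <;> fun_prop
  · fun_prop

theorem exists_top (X : Set ℕ) (f x0 s : ℕ) :
    ∃ h, h < s + 1 ∧ (ok X f x0 s h ∧ ∀ h' < s + 1, h < h' → ¬ ok X f x0 s h') := by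
  classical
  refine ⟨Nat.findGreatest (ok X f x0 s) s, Nat.lt_succ_of_le (Nat.findGreatest_le s), ?_, ?_⟩
  · exact Nat.findGreatest_spec (Nat.zero_le s) (ok_zero X f x0 s)
  · intro h' h1 h2
    exact Nat.findGreatest_is_greatest h2 (Nat.lt_succ_iff.1 h1)

theorem Lim_iff {X : Set ℕ} {f x0 s y h : ℕ} (hy : y < 2 ^ s) (h1 : h < s + 1)
    (h2 : ok X f x0 s h) (h3 : ∀ h' < s + 1, h < h' → ¬ ok X f x0 s h') :
    Lim X f x0 (2 ^ s + y) ↔ prn (mf f x0 s h) (2 ^ s + y) ∈ X := by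
  unfold Lim
  rw [lg_block hy]
  constructor
  · rintro ⟨g, g1, ⟨g2, g3⟩, g4⟩
    have : g = h := by
      rcases lt_trichotomy g h with e | e | e
      · exact absurd h2 (g3 h h1 e)
      · exact e
      · exact absurd g2 (h3 g g1 e)
    rw [← this]
    exact g4
  · intro h4
    exact ⟨h, h1, ⟨h2, h3⟩, h4⟩

/-! ### counting -/

theorem cnt_add (P : ℕ → Prop) (a b : ℕ) : cnt P (a + b) = cnt P a + cnt (fun y => P (a + y)) b := by
  classical
  induction b with
  | zero => simp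
  | succ b ih =>
    rw [← Nat.add_assoc, cnt_succ, ih, cnt_succ]
    omega

theorem cnt_mono {P Q : ℕ → Prop} {n : ℕ} (h : ∀ x < n, P x → Q x) : cnt P n ≤ cnt Q n := by
  classical
  induction n with
  | zero => simp
  | succ n ih =>
    have h1 := ih fun x hx => h x (by omega)
    rw [cnt_succ, cnt_succ]
    by_cases hP : P n
    · rw [if_pos hP, if_pos (h n (by omega) hP)]
      omega
    · rw [if_neg hP]
      omega

theorem cnt_or {P Q R : ℕ → Prop} {n : ℕ} (h : ∀ x < n, P x → Q x ∨ R x) :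
    cnt P n ≤ cnt Q n + cnt R n := by
  classical
  induction n with
  | zero => simp
  | succ n ih =>
    have h1 := ih fun x hx => h x (by omega)
    rw [cnt_succ, cnt_succ, cnt_succ]
    by_cases hP : P n
    · rw [if_pos hP]
      rcases h n (by omega) hP with h2 | h2
      · rw [if_pos h2]
        omega
      · rw [if_pos h2]
        omega
    · rw [if_neg hP]
      omega

theorem cnt_mono_right (P : ℕ → Prop) {m n : ℕ} (h : m ≤ n) : cnt P m ≤ cnt P n := by
  obtain ⟨k, rfl⟩ := Nat.exists_eq_add_of_le h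
  rw [cnt_add]
  omega

theorem cnt_false {P : ℕ → Prop} {n : ℕ} (h : ∀ x < n, ¬ P x) : cnt P n = 0 := by
  classical
  induction n with
  | zero => simp
  | succ n ih =>
    rw [cnt_succ, ih fun x hx => h x (by omega), if_neg (h n (by omega))]

theorem blk_le (P : ℕ → Prop) (s : ℕ) : blk P s ≤ cnt P (2 ^ (s + 1)) := by
  have h : 2 ^ (s + 1) = 2 ^ s + 2 ^ s := by ring
  rw [h, cnt_add]
  unfold blk
  omega

theorem blk_sum {P : ℕ → Prop} {k s0 : ℕ} (s : ℕ) (hs : s0 ≤ s)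
    (h : ∀ t, s0 ≤ t → t < s → 2 ^ k * blk P t ≤ 4 * 2 ^ t) :
    2 ^ k * cnt P (2 ^ s) ≤ 2 ^ k * 2 ^ s0 + 4 * 2 ^ s := by
  induction s, hs using Nat.le_induction with
  | base =>
    have := Nat.mul_le_mul_left (2 ^ k) (cnt_le P (2 ^ s0))
    omega
  | succ s hs ih =>
    have h1 := ih fun t ht ht' => h t ht (by omega)
    have h2 := h s hs (by omega)
    have h3 : 2 ^ (s + 1) = 2 ^ s + 2 ^ s := by ring
    have h4 : cnt P (2 ^ (s + 1)) = cnt P (2 ^ s) + blk P s := by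
      rw [h3, cnt_add]
      rfl
    rw [h4, h3, Nat.mul_add]
    omega

theorem cnt_block {P : ℕ → Prop} {k s0 j : ℕ} (hj : 1 ≤ j)
    (h : ∀ t, s0 ≤ t → t ≤ j → 2 ^ k * blk P t ≤ 4 * 2 ^ t) :
    2 ^ k * cnt P j ≤ 2 ^ k * 2 ^ s0 + 8 * j := by
  have h1 : j < 2 ^ (Nat.log 2 j + 1) := Nat.lt_pow_succ_log_self (by norm_num) j
  have h2 : 2 ^ Nat.log 2 j ≤ j := Nat.pow_log_le_self 2 (by omega)
  have h3 : Nat.log 2 j ≤ j := Nat.log_le_self 2 j
  have h4 : 2 ^ (Nat.log 2 j + 1) = 2 * 2 ^ Nat.log 2 j := by ring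
  have h5 := Nat.mul_le_mul_left (2 ^ k) (cnt_mono_right P h1.le)
  rcases Nat.lt_or_ge (Nat.log 2 j + 1) s0 with h6 | h6
  · have h7 : 2 ^ (Nat.log 2 j + 1) ≤ 2 ^ s0 := Nat.pow_le_pow_right (by norm_num) h6.le
    have h8 := Nat.mul_le_mul_left (2 ^ k) ((cnt_le P j).trans (h1.le.trans h7))
    omega
  · have h7 := blk_sum (P := P) (k := k) _ h6 fun t ht ht' => h t ht (by omega)
    omega

end Pool.Agent.H869R3.DM
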