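import Pool.Agent.H869R3.DM.Std
import Pool.Agent.Helper617.RM.HLDefs
import Pool.Agent.Helper617.FS.Defs

/-!
The structure: numbers are the elements of an ultrapower of the natural numbers below one of
the iterates, sets are the sets which are computable in the sense of the structure.
-/

namespace Pool.Agent.H869R3.DM

open Pool.Agent.Helper446 Pool.Agent.Helper446.RE Encodable Filter
open Pool.Agent.Helper617.RM

/-! ### closure of `InM` -/

theorem InM.comp {x : ℕ → ℕ} (hx : InM x) {f : ℕ → ℕ} (hf : Computable f) :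
    InM fun i => f (x i) := by
  obtain ⟨y, hy, h⟩ := InM.wit (P := fun a b => f a = b)
    (RE.eq (f := fun q : ℕ × ℕ => f q.1) (g := fun q => q.2) (by fun_prop) (by fun_prop)) hx
    (by simp)
  exact hy.mono (by filter_upwards [h] with i hi using hi.le)

theorem InM.pair {x y : ℕ → ℕ} (hx : InM x) (hy : InM y) :
    InM fun i => Nat.pair (x i) (y i) := by
  have h := (hx.sup hy).comp (f := fun m => (m + 1) * (m + 1)) (by fun_prop)
  refine h.mono (Eventually.of_forall fun i => ?_)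
  have := Nat.pair_lt_max_add_one_sq (x i) (y i)
  rw [sq] at this
  exact this.le

theorem InM.comp2 {x y : ℕ → ℕ} (hx : InM x) (hy : InM y) {f : ℕ → ℕ → ℕ}
    (hf : Computable fun q : ℕ × ℕ => f q.1 q.2) : InM fun i => f (x i) (y i) := by
  have h := (hx.pair hy).comp (f := fun m => f m.unpair.1 m.unpair.2)
    (hf.comp (f := fun q : ℕ × ℕ => f q.1 q.2) (g := fun m : ℕ => m.unpair) (by fun_prop))
  simpa using h

theorem InM.add {x y : ℕ → ℕ} (hx : InM x) (hy : InM y) : InM fun i => x i + y i :=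
  hx.comp2 hy (f := fun a b => a + b) (by fun_prop)

theorem InM.mul {x y : ℕ → ℕ} (hx : InM x) (hy : InM y) : InM fun i => x i * y i :=
  hx.comp2 hy (f := fun a b => a * b) (by fun_prop)

/-! ### the numbers -/

def IM : Type := {x : ℕ → ℕ // InM x}

instance imSetoid : Setoid IM where
  r x y := ∀ᶠ i in (U : Filter ℕ), x.1 i = y.1 i
  iseqv := by
    refine ⟨fun x => by simp, fun h => ?_, fun h h' => ?_⟩
    · filter_upwards [h] with i hi using hi.symm
    · filter_upwards [h, h'] with i hi hi' using hi.trans hi'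

def MM : Type := Quotient imSetoid

noncomputable def rep (x : MM) : ℕ → ℕ := (Quotient.out x).1

theorem rep_inM (x : MM) : InM (rep x) := (Quotient.out x).2

noncomputable def mk (x : ℕ → ℕ) (h : InM x) : MM := Quotient.mk _ ⟨x, h⟩

theorem rep_mk {x : ℕ → ℕ} (h : InM x) : ∀ᶠ i in (U : Filter ℕ), rep (mk x h) i = x i := by
  have h1 : imSetoid.r (Quotient.out (Quotient.mk imSetoid (⟨x, h⟩ : IM))) (⟨x, h⟩ : IM) :=
    Quotient.exact (Quotient.out_eq _)
  exact h1

theorem mm_ext {x y : MM} : x = y ↔ ∀ᶠ i in (U : Filter ℕ), rep x i = rep y i := by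
  constructor
  · rintro rfl; simp
  · intro h
    rw [← Quotient.out_eq x, ← Quotient.out_eq y]
    exact Quotient.sound h

theorem mk_eq {x : ℕ → ℕ} (h : InM x) {y : MM} :
    mk x h = y ↔ ∀ᶠ i in (U : Filter ℕ), x i = rep y i := by
  rw [mm_ext]
  constructor
  · intro h'
    filter_upwards [h', rep_mk h] with i h1 h2 using h2.symm.trans h1
  · intro h'
    filter_upwards [h', rep_mk h] with i h1 h2 using h2.trans h1

theorem ev_not {P : ℕ → Prop} : (∀ᶠ i in (U : Filter ℕ), ¬ P i) ↔ ¬ ∀ᶠ i in (U : Filter ℕ), P i :=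
  Ultrafilter.eventually_not

theorem ev_or {P Q : ℕ → Prop} : (∀ᶠ i in (U : Filter ℕ), (P i ∨ Q i)) ↔
    (∀ᶠ i in (U : Filter ℕ), P i) ∨ ∀ᶠ i in (U : Filter ℕ), Q i :=
  Ultrafilter.eventually_or

theorem ev_and {P Q : ℕ → Prop} : (∀ᶠ i in (U : Filter ℕ), (P i ∧ Q i)) ↔
    (∀ᶠ i in (U : Filter ℕ), P i) ∧ ∀ᶠ i in (U : Filter ℕ), Q i :=
  eventually_and

theorem ev_congr {P Q : ℕ → Prop} (h : ∀ᶠ i in (U : Filter ℕ), (P i ↔ Q i)) :
    (∀ᶠ i in (U : Filter ℕ), P i) ↔ ∀ᶠ i in (U : Filter ℕ), Q i :=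
  eventually_congr h

theorem ev_false {P : ℕ → Prop} (h : ∀ᶠ i in (U : Filter ℕ), P i) (h' : ∀ i, ¬ P i) : False := by
  obtain ⟨i, hi⟩ := h.exists
  exact h' i hi

/-! ### the structure -/

/-- The set `X` is computable in the sense of the structure, by the pair `A1`, `A0` with
parameter `p`. -/
def Computes (X : Set MM) (A1 A0 : ℕ → ℕ → Prop) (p : ℕ → ℕ) : Prop :=
  ∀ x, (x ∈ X ↔ ∀ᶠ i in (U : Filter ℕ), A1 (p i) (rep x i)) ∧
    (x ∉ X ↔ ∀ᶠ i in (U : Filter ℕ), A0 (p i) (rep x i))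

@[reducible] noncomputable def NN : L2Structure.{0} where
  M := MM
  zero := mk (fun _ => 0) (InM.const 0)
  one := mk (fun _ => 1) (InM.const 1)
  add x y := mk (fun i => rep x i + rep y i) ((rep_inM x).add (rep_inM y))
  mul x y := mk (fun i => rep x i * rep y i) ((rep_inM x).mul (rep_inM y))
  lt x y := ∀ᶠ i in (U : Filter ℕ), rep x i < rep y i
  Sets := {X | ∃ A1 A0 : ℕ → ℕ → Prop, REPred (fun q : ℕ × ℕ => A1 q.1 q.2) ∧
    REPred (fun q : ℕ × ℕ => A0 q.1 q.2) ∧ ∃ p : ℕ → ℕ, InM p ∧ Computes X A1 A0 p}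

theorem rep_zero : ∀ᶠ i in (U : Filter ℕ), rep NN.zero i = 0 := rep_mk _
theorem rep_one : ∀ᶠ i in (U : Filter ℕ), rep NN.one i = 1 := rep_mk _
theorem rep_add (x y : NN.M) : ∀ᶠ i in (U : Filter ℕ), rep (NN.add x y) i = rep x i + rep y i :=
  rep_mk ((rep_inM x).add (rep_inM y))
theorem rep_mul (x y : NN.M) : ∀ᶠ i in (U : Filter ℕ), rep (NN.mul x y) i = rep x i * rep y i :=
  rep_mk ((rep_inM x).mul (rep_inM y))
theorem lt_iff (x y : NN.M) : NN.lt x y ↔ ∀ᶠ i in (U : Filter ℕ), rep x i < rep y i := Iff.rfl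

/-! ### assignments -/

noncomputable def vec (n : ℕ) (v : ℕ → MM) (i : ℕ) : List ℕ :=
  (List.range n).map fun k => rep (v k) i

theorem vec_succ (n : ℕ) (v : ℕ → MM) (i : ℕ) :
    vec (n + 1) v i = rep (v 0) i :: vec n (fun k => v (k + 1)) i := by
  unfold vec
  rw [List.range_succ_eq_map, List.map_cons, List.map_map]
  rfl

theorem vec_cons (n : ℕ) (a : MM) (v : ℕ → MM) (i : ℕ) :
    vec (n + 1) (cons a v) i = rep a i :: vec n v i := vec_succ n (cons a v) i

theorem vec_get {n k : ℕ} (h : k < n) (v : ℕ → MM) (i : ℕ) :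
    ((vec n v i)[k]?).getD 0 = rep (v k) i := by
  unfold vec
  rw [List.getElem?_map, List.getElem?_range h]
  rfl

theorem vec_inM (n : ℕ) (v : ℕ → MM) : InM fun i => encode (vec n v i) := by
  induction n generalizing v with
  | zero =>
    refine (InM.const 0).mono (Eventually.of_forall fun i => ?_)
    simp [vec]
  | succ n ih =>
    refine (((rep_inM (v 0)).pair (ih (fun k => v (k + 1)))).comp (f := Nat.succ)
      (by fun_prop)).mono (Eventually.of_forall fun i => ?_)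
    rw [vec_succ]
    simp

/-- `R` is `Σ⁰₁` in the sense of the structure -/
def SC (R : (ℕ → MM) → Prop) : Prop :=
  ∃ n0, ∀ n ≥ n0, ∃ A : ℕ → List ℕ → Prop, REPred (fun q : ℕ × List ℕ => A q.1 q.2) ∧
    ∃ p : ℕ → ℕ, InM p ∧ ∀ v, R v ↔ ∀ᶠ i in (U : Filter ℕ), A (p i) (vec n v i)

/-- `t` is computed by a computable function -/
def TC (t : (ℕ → MM) → MM) : Prop :=
  ∃ n0, ∀ n ≥ n0, ∃ f : ℕ → List ℕ → ℕ, Computable (fun q : ℕ × List ℕ => f q.1 q.2) ∧
    ∃ p : ℕ → ℕ, InM p ∧ ∀ v, ∀ᶠ i in (U : Filter ℕ), rep (t v) i = f (p i) (vec n v i)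

theorem SC.congr {R S : (ℕ → MM) → Prop} (h : SC R) (hRS : ∀ v, R v ↔ S v) : SC S := by
  obtain ⟨n0, h⟩ := h
  refine ⟨n0, fun n hn => ?_⟩
  obtain ⟨A, hA, p, hp, h⟩ := h n hn
  exact ⟨A, hA, p, hp, fun v => (hRS v).symm.trans (h v)⟩

theorem TC.var (k : ℕ) : TC fun v => v k := by
  refine ⟨k + 1, fun n hn => ⟨fun _ l => (l[k]?).getD 0, ?_, fun _ => 0, InM.const 0,
    fun v => Eventually.of_forall fun i => (vec_get (by omega) v i).symm⟩⟩
  exact Computable.option_getD (f := fun q : ℕ × List ℕ => q.2[k]?) (g := fun _ => 0)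
    (by fun_prop) (by fun_prop)

theorem TC.const (a : MM) : TC fun _ => a :=
  ⟨0, fun n _ => ⟨fun p _ => p, by fun_prop, rep a, rep_inM a, fun v => by simp⟩⟩

theorem TC.bin {s t : (ℕ → MM) → MM} (hs : TC s) (ht : TC t) (g : ℕ → ℕ → ℕ)
    (hg : Computable fun q : ℕ × ℕ => g q.1 q.2) {r : (ℕ → MM) → MM}
    (hr : ∀ v, ∀ᶠ i in (U : Filter ℕ), rep (r v) i = g (rep (s v) i) (rep (t v) i)) : TC r := by
  obtain ⟨n1, hs⟩ := hs
  obtain ⟨n2, ht⟩ := ht
  refine ⟨max n1 n2, fun n hn => ?_⟩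
  obtain ⟨f1, c1, p1, i1, h1⟩ := hs n (by omega)
  obtain ⟨f2, c2, p2, i2, h2⟩ := ht n (by omega)
  refine ⟨fun p l => g (f1 p.unpair.1 l) (f2 p.unpair.2 l), ?_,
    fun i => Nat.pair (p1 i) (p2 i), i1.pair i2, fun v => ?_⟩
  · have e1 := c1.comp (g := fun q : ℕ × List ℕ => (q.1.unpair.1, q.2)) (by fun_prop)
    have e2 := c2.comp (g := fun q : ℕ × List ℕ => (q.1.unpair.2, q.2)) (by fun_prop)
    exact hg.comp (e1.pair e2)
  · filter_upwards [h1 v, h2 v, hr v] with i a1 a2 a3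
    simp only [Nat.unpair_pair]
    rw [a3, a1, a2]

theorem term_TC (τ : Term NN) : TC fun v => τ.val v := by
  induction τ with
  | var k => exact TC.var k
  | const a => exact TC.const a
  | zero => exact TC.const NN.zero
  | one => exact TC.const NN.one
  | add s t hs ht => exact hs.bin ht (fun a b => a + b) (by fun_prop) fun v => rep_add _ _
  | mul s t hs ht => exact hs.bin ht (fun a b => a * b) (by fun_prop) fun v => rep_mul _ _

theorem SC.bin {s t : (ℕ → MM) → MM} (hs : TC s) (ht : TC t) (g : ℕ → ℕ → Prop)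
    (hg : REPred fun q : ℕ × ℕ => g q.1 q.2) {R : (ℕ → MM) → Prop}
    (hr : ∀ v, R v ↔ ∀ᶠ i in (U : Filter ℕ), g (rep (s v) i) (rep (t v) i)) : SC R := by
  obtain ⟨n1, hs⟩ := hs
  obtain ⟨n2, ht⟩ := ht
  refine ⟨max n1 n2, fun n hn => ?_⟩
  obtain ⟨f1, c1, p1, i1, h1⟩ := hs n (by omega)
  obtain ⟨f2, c2, p2, i2, h2⟩ := ht n (by omega)
  refine ⟨fun p l => g (f1 p.unpair.1 l) (f2 p.unpair.2 l), ?_,
    fun i => Nat.pair (p1 i) (p2 i), i1.pair i2, fun v => ?_⟩
  · have e1 := c1.comp (g := fun q : ℕ × List ℕ => (q.1.unpair.1, q.2)) (by fun_prop)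
    have e2 := c2.comp (g := fun q : ℕ × List ℕ => (q.1.unpair.2, q.2)) (by fun_prop)
    exact RE.comp hg (e1.pair e2)
  · rw [hr]
    refine ev_congr ?_
    filter_upwards [h1 v, h2 v] with i a1 a2
    simp only [Nat.unpair_pair]
    rw [a1, a2]

/-- combine two `SC` predicates -/
theorem SC.comb {R S T : (ℕ → MM) → Prop} (hR : SC R) (hS : SC S) (g : Prop → Prop → Prop)
    (hg : ∀ {P Q : ℕ × List ℕ → Prop}, REPred P → REPred Q → REPred fun q => g (P q) (Q q))
    (hT : ∀ v, ∀ P Q : ℕ → Prop, (R v ↔ ∀ᶠ i in (U : Filter ℕ), P i) →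
      (S v ↔ ∀ᶠ i in (U : Filter ℕ), Q i) → (T v ↔ ∀ᶠ i in (U : Filter ℕ), g (P i) (Q i))) :
    SC T := by
  obtain ⟨n1, hR⟩ := hR
  obtain ⟨n2, hS⟩ := hS
  refine ⟨max n1 n2, fun n hn => ?_⟩
  obtain ⟨A, cA, p1, i1, h1⟩ := hR n (by omega)
  obtain ⟨A', cA', p2, i2, h2⟩ := hS n (by omega)
  refine ⟨fun p l => g (A p.unpair.1 l) (A' p.unpair.2 l), ?_,
    fun i => Nat.pair (p1 i) (p2 i), i1.pair i2, fun v => ?_⟩
  · exact hg (P := fun q => A q.1.unpair.1 q.2) (Q := fun q => A' q.1.unpair.2 q.2)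
      (RE.comp cA (f := fun q : ℕ × List ℕ => (q.1.unpair.1, q.2)) (by fun_prop))
      (RE.comp cA' (f := fun q : ℕ × List ℕ => (q.1.unpair.2, q.2)) (by fun_prop))
  · simp only [Nat.unpair_pair]
    exact hT v _ _ (h1 v) (h2 v)

theorem SC.and {R S : (ℕ → MM) → Prop} (hR : SC R) (hS : SC S) : SC fun v => R v ∧ S v := by
  refine hR.comb hS And (fun hP hQ => RE.and hP hQ) ?_
  intro v P Q h1 h2
  rw [h1, h2, ev_and]

theorem SC.or {R S : (ℕ → MM) → Prop} (hR : SC R) (hS : SC S) : SC fun v => R v ∨ S v := by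
  refine hR.comb hS Or (fun hP hQ => RE.or hP hQ) ?_
  intro v P Q h1 h2
  rw [h1, h2, ev_or]

theorem SC.ball {R : (ℕ → MM) → Prop} (hR : SC R) {t : (ℕ → MM) → MM} (ht : TC t) :
    SC fun v => ∀ a, NN.lt a (t v) → R (cons a v) := by
  obtain ⟨n1, hR⟩ := hR
  obtain ⟨n2, ht⟩ := ht
  refine ⟨max n1 n2, fun n hn => ?_⟩
  obtain ⟨A, cA, p1, i1, h1⟩ := hR (n + 1) (by omega)
  obtain ⟨f2, c2, p2, i2, h2⟩ := ht n (by omega)
  refine ⟨fun p l => ∀ x < f2 p.unpair.2 l, A p.unpair.1 (x :: l), ?_,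
    fun i => Nat.pair (p1 i) (p2 i), i1.pair i2, fun v => ?_⟩
  · refine RE.all_lt (p := fun (q : ℕ × List ℕ) x => A q.1.unpair.1 (x :: q.2)) ?_ ?_
    · exact RE.comp cA (f := fun q : (ℕ × List ℕ) × ℕ => (q.1.1.unpair.1, q.2 :: q.1.2))
        (by fun_prop)
    · exact c2.comp (g := fun q : ℕ × List ℕ => (q.1.unpair.2, q.2)) (by fun_prop)
  · simp only [Nat.unpair_pair]
    constructor
    · intro h
      by_contra hcon
      rw [← ev_not] at hcon
      have h3 : ∀ᶠ i in (U : Filter ℕ), ∃ x, x < rep (t v) i ∧ ¬ A (p1 i) (x :: vec n v i) := by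
        filter_upwards [hcon, h2 v] with i e1 e2
        push Not at e1
        rw [e2]
        exact e1
      obtain ⟨x, hx⟩ := h3.choice
      have hxM : InM x := (rep_inM (t v)).mono (by
        filter_upwards [hx] with i hi using hi.1.le)
      have h4 : NN.lt (mk x hxM) (t v) := by
        refine (lt_iff _ _).2 ?_
        filter_upwards [hx, rep_mk hxM] with i e1 e2
        rw [e2]
        exact e1.1
      have h5 := (h1 _).1 (h _ h4)
      refine ev_false (h5.and (hx.and (rep_mk hxM))) ?_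
      rintro i ⟨e1, e2, e3⟩
      rw [vec_cons, e3] at e1
      exact e2.2 e1
    · intro h a ha
      rw [h1]
      have ha := (lt_iff _ _).1 ha
      filter_upwards [h, ha, h2 v] with i e1 e2 e3
      rw [vec_cons]
      exact e1 _ (by rw [← e3]; exact e2)

theorem SC.ex {R : (ℕ → MM) → Prop} (hR : SC R) : SC fun v => ∃ a, R (cons a v) := by
  obtain ⟨n1, hR⟩ := hR
  refine ⟨n1, fun n hn => ?_⟩
  obtain ⟨A, cA, p1, i1, h1⟩ := hR (n + 1) (by omega)
  have hre : REPred fun q : (ℕ × List ℕ) × ℕ => A q.1.1 (q.2 :: q.1.2) :=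
    RE.comp cA (f := fun q : (ℕ × List ℕ) × ℕ => (q.1.1, q.2 :: q.1.2)) (by fun_prop)
  refine ⟨fun p l => ∃ x, A p (x :: l), RE.exN (p := fun (q : ℕ × List ℕ) x =>
    A q.1 (x :: q.2)) hre, p1, i1, fun v => ?_⟩
  constructor
  · rintro ⟨a, ha⟩
    rw [h1] at ha
    filter_upwards [ha] with i hi
    rw [vec_cons] at hi
    exact ⟨_, hi⟩
  · intro h
    have hin : InM fun i => encode (p1 i, vec n v i) := i1.pair (vec_inM n v)
    obtain ⟨y, hy, h2⟩ := InM.wit
      (P := fun z x => A (Denumerable.ofNat (ℕ × List ℕ) z).1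
        (x :: (Denumerable.ofNat (ℕ × List ℕ) z).2)) (by
        have h3 : Computable fun q : ℕ × ℕ =>
            (Denumerable.ofNat (ℕ × List ℕ) q.1, q.2) :=
          ((Computable.ofNat (ℕ × List ℕ)).comp Computable.fst).pair Computable.snd
        exact RE.comp hre h3) hin (by
        filter_upwards [h] with i hi
        simpa using hi)
    refine ⟨mk y hy, (h1 _).2 ?_⟩
    filter_upwards [h2, rep_mk hy] with i e1 e2
    rw [vec_cons, e2]
    simpa using e1

theorem SC.bex {R : (ℕ → MM) → Prop} (hR : SC R) {t : (ℕ → MM) → MM} (ht : TC t) :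
    SC fun v => ∃ a, NN.lt a (t v) ∧ R (cons a v) := by
  have h : SC fun v => NN.lt (v 0) (t (fun k => v (k + 1))) := by
    have ht' : TC fun v => t (fun k => v (k + 1)) := by
      obtain ⟨n0, ht⟩ := ht
      refine ⟨n0 + 1, fun n hn => ?_⟩
      obtain ⟨n', rfl⟩ : ∃ n', n = n' + 1 := ⟨n - 1, by omega⟩
      obtain ⟨f, c, p, hp, h⟩ := ht n' (by omega)
      refine ⟨fun p l => f p l.tail, ?_, p, hp, fun v => ?_⟩
      · exact c.comp (g := fun q : ℕ × List ℕ => (q.1, q.2.tail))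
          (Computable.fst.pair (Primrec.list_tail.to_comp.comp Computable.snd))
      · filter_upwards [h (fun k => v (k + 1))] with i hi
        rw [hi, vec_succ]
        rfl
    exact SC.bin (TC.var 0) ht' (fun a b => a < b) (RE.lt (by fun_prop) (by fun_prop))
      fun v => Iff.rfl
  exact (h.and hR).ex

/-- truth of `Δ⁰₀` formulas -/
theorem delta0_SC (θ : Delta0 NN) : SC (fun v => θ.Holds v) ∧ SC (fun v => ¬ θ.Holds v) := by
  induction θ with
  | eq s t =>
    refine ⟨SC.bin (term_TC s) (term_TC t) (fun a b => a = b) (RE.eq (by fun_prop) (by fun_prop))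
      fun v => mm_ext, SC.bin (term_TC s) (term_TC t) (fun a b => a ≠ b)
      (RE.ne (by fun_prop) (by fun_prop)) fun v => ?_⟩
    rw [ev_not]
    exact not_congr mm_ext
  | lt s t =>
    refine ⟨SC.bin (term_TC s) (term_TC t) (fun a b => a < b) (RE.lt (by fun_prop) (by fun_prop))
      fun v => Iff.rfl, SC.bin (term_TC s) (term_TC t) (fun a b => b ≤ a)
      (RE.le (by fun_prop) (by fun_prop)) fun v => ?_⟩
    have h : ∀ a b : ℕ, b ≤ a ↔ ¬ a < b := fun a b => not_lt.symm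
    simp only [h]
    rw [ev_not]
    exact Iff.rfl
  | mem t X =>
    obtain ⟨X, A1, A0, c1, c0, p, hp, hX⟩ := X
    have hTp : TC fun _ => mk p hp := TC.const _
    refine ⟨SC.bin hTp (term_TC t) A1 c1 fun v => ?_, SC.bin hTp (term_TC t) A0 c0 fun v => ?_⟩
    · refine (hX _).1.trans (ev_congr ?_)
      filter_upwards [rep_mk hp] with i hi
      rw [hi]
    · refine (hX _).2.trans (ev_congr ?_)
      filter_upwards [rep_mk hp] with i hi
      rw [hi]
  | neg φ ih =>
    refine ⟨ih.2, ih.1.congr fun v => ?_⟩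
    simp only [Delta0.Holds, not_not]
  | and φ ψ h1 h2 =>
    refine ⟨h1.1.and h2.1, (h1.2.or h2.2).congr fun v => ?_⟩
    simp only [Delta0.Holds]
    tauto
  | ball t φ ih =>
    refine ⟨ih.1.ball (term_TC t), (ih.2.bex (term_TC t)).congr fun v => ?_⟩
    simp only [Delta0.Holds]
    push Not
    rfl

end Pool.Agent.H869R3.DM
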