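import Pool.Agent.H869R3.DM.NegDom
import Pool.Agent.Helper617.CR.Defs

/-!
The cohesiveness principle fails in the structure.
-/

namespace Pool.Agent.H869R3.DM

open Pool.Agent.Helper446 Pool.Agent.Helper446.RE Encodable Filter Nat.Partrec
open Pool.Agent.Helper617.RM

/-- indices with a parameter -/
theorem smn {P : ℕ → ℕ → Prop} (hP : REPred fun q : ℕ × ℕ => P q.1 q.2) :
    ∃ σ : ℕ → ℕ, Computable σ ∧ ∀ q w, P q w ↔ ∃ s, wst ℕ (σ q) s w = true := by
  have h1 : REPred fun z : ℕ => P z.unpair.1 z.unpair.2 :=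
    RE.comp hP (f := fun z : ℕ => (z.unpair.1, z.unpair.2)) (by fun_prop)
  obtain ⟨c, hc⟩ := Code.exists_code.1 h1
  refine ⟨fun q => encode (Code.curry c q), ?_, fun q w => ?_⟩
  · have h2 : Computable fun q : ℕ => Code.curry c q :=
      Code.primrec₂_curry.to_comp.comp (Computable.const c) Computable.id
    exact Computable.encode.comp h2
  · have hk : ∀ n : ℕ, (Code.eval c n).Dom ↔ P n.unpair.1 n.unpair.2 := by
      intro n
      rw [hc]
      simp only [decode_nat, Part.coe_some, Part.bind_some, Part.map_Dom]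
      constructor
      · rintro ⟨h, -⟩; exact h
      · intro h; exact ⟨h, trivial⟩
    have h3 : P q w ↔ (Code.eval (Code.curry c q) w).Dom := by
      rw [Code.eval_curry, hk, Nat.unpair_pair]
    unfold wst
    rw [h3, Part.dom_iff_mem, Denumerable.ofNat_encode, encode_nat]
    constructor
    · rintro ⟨y, hy⟩
      obtain ⟨k, hk⟩ := Code.evaln_complete.1 hy
      refine ⟨k, ?_⟩
      rw [Option.mem_def] at hk
      rw [hk]; rfl
    · rintro ⟨k, hk⟩
      obtain ⟨y, hy⟩ := Option.isSome_iff_exists.1 hk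
      exact ⟨y, Code.evaln_complete.2 ⟨k, hy⟩⟩

/-- the value at `t` of the partial function with index `e` is known at stage `s` -/
def Kn (e s t : ℕ) : Prop :=
  wst ℕ e.unpair.1 s (Nat.pair e t) = true ∨ wst ℕ e.unpair.2 s (Nat.pair e t) = true

/-- the diagonal sequence of sets -/
def RR (e s : ℕ) : Prop :=
  ∃ t, t < s ∧ ((Kn e s t ∧ ∀ t' < s, t < t' → ¬ Kn e s t') ∧
    wst ℕ e.unpair.2 s (Nat.pair e t) = true)

theorem cp_Kn {α : Type*} [Primcodable α] {f g h : α → ℕ} (hf : Computable f)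
    (hg : Computable g) (hh : Computable h) : ComputablePred fun a => Kn (f a) (g a) (h a) := by
  unfold Kn
  exact cp_or (cp_bool (by fun_prop)) (cp_bool (by fun_prop))

theorem cp_RR {α : Type*} [Primcodable α] {f g : α → ℕ} (hf : Computable f)
    (hg : Computable g) : ComputablePred fun a => RR (f a) (g a) := by
  unfold RR
  refine cp_ex (p := fun a t => (Kn (f a) (g a) t ∧ ∀ t' < g a, t < t' → ¬ Kn (f a) (g a) t') ∧
    wst ℕ (f a).unpair.2 (g a) (Nat.pair (f a) t) = true) ?_ (by fun_prop)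
  refine cp_and (cp_and (cp_Kn ?_ ?_ ?_) ?_) (cp_bool (by fun_prop))
  · fun_prop
  · fun_prop
  · fun_prop
  · refine cp_all (p := fun (x : α × ℕ) t' => x.2 < t' → ¬ Kn (f x.1) (g x.1) t') ?_ (by fun_prop)
    exact cp_imp (cp_lt (by fun_prop) (by fun_prop)) (cp_Kn (by fun_prop) (by fun_prop)
      (by fun_prop)).not

/-- the coded sequence of sets -/
def PR (z : ℕ) : Prop := ∃ e, e < z + 1 ∧ ∃ s, s < z + 1 ∧ (z = prn e s ∧ RR e s)

theorem PR_prn {e s : ℕ} : PR (prn e s) ↔ RR e s := by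
  constructor
  · rintro ⟨e', _, s', _, h1, h2⟩
    obtain ⟨rfl, rfl⟩ := prn_inj h1
    exact h2
  · intro h
    have h1 := fst_le_prn e s
    have h2 := snd_le_prn e s
    exact ⟨e, by omega, s, by omega, rfl, h⟩

theorem cp_PR : ComputablePred fun a : ℕ × ℕ => PR a.2 := by
  unfold PR
  refine cp_ex (p := fun (q : ℕ × ℕ) e => ∃ s, s < q.2 + 1 ∧ (q.2 = prn e s ∧ RR e s)) ?_
    (by fun_prop)
  refine cp_ex (p := fun (q : (ℕ × ℕ) × ℕ) s => q.1.2 = prn q.2 s ∧ RR q.2 s) ?_ (by fun_prop)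
  exact cp_and (cp_eq (by fun_prop) (by fun_prop)) (cp_RR (by fun_prop) (by fun_prop))

noncomputable def XR : Set NN.M := {x | ∀ᶠ i in (U : Filter ℕ), PR (rep x i)}

theorem XR_mem : XR ∈ NN.Sets := sets_of_cp (P := fun _ x => PR x) cp_PR (InM.const 0)

theorem mem_XR (e s : NN.M) : NN.pair e s ∈ XR ↔
    ∀ᶠ i in (U : Filter ℕ), RR (rep e i) (rep s i) := by
  refine ev_congr ?_
  filter_upwards [rep_pair e s] with i e1
  rw [e1, PR_prn]

/-- the next element of the set at or after `t` -/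
def Nx (A1 A0 : ℕ → ℕ → Prop) (q t c : ℕ) : Prop :=
  t ≤ c ∧ A1 q c ∧ ∀ c' < c, t ≤ c' → A0 q c'

/-- the value at `(e, t)`; the parameter `b` is the value -/
def Vl (A1 A0 : ℕ → ℕ → Prop) (b : Bool) (q w : ℕ) : Prop :=
  ∃ c, Nx A1 A0 q w.unpair.2 c ∧ (RR w.unpair.1 c ↔ b = true)

theorem re_Vl {A1 A0 : ℕ → ℕ → Prop} (c1 : REPred fun q : ℕ × ℕ => A1 q.1 q.2)
    (c0 : REPred fun q : ℕ × ℕ => A0 q.1 q.2) (b : Bool) :
    REPred fun q : ℕ × ℕ => Vl A1 A0 b q.1 q.2 := by
  unfold Vl Nx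
  refine RE.exN (p := fun (q : ℕ × ℕ) c => (q.2.unpair.2 ≤ c ∧ A1 q.1 c ∧
    ∀ c' < c, q.2.unpair.2 ≤ c' → A0 q.1 c') ∧ (RR q.2.unpair.1 c ↔ b = true)) ?_
  refine RE.and (RE.and (RE.le (by fun_prop) (by fun_prop)) (RE.and ?_ ?_)) ?_
  · exact RE.comp c1 (f := fun x : (ℕ × ℕ) × ℕ => (x.1.1, x.2)) (by fun_prop)
  · refine RE.all_lt (p := fun (x : (ℕ × ℕ) × ℕ) c' => x.1.2.unpair.2 ≤ c' → A0 x.1.1 c') ?_
      (by fun_prop)
    have h1 : REPred fun x : ((ℕ × ℕ) × ℕ) × ℕ => ¬ x.1.1.2.unpair.2 ≤ x.2 ∨ A0 x.1.1.1 x.2 :=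
      RE.or (cp_le (by fun_prop) (by fun_prop)).not.to_re
        (RE.comp c0 (f := fun x : ((ℕ × ℕ) × ℕ) × ℕ => (x.1.1.1, x.2)) (by fun_prop))
    refine h1.of_eq fun x => ?_
    tauto
  · rcases b with _ | _
    · refine (cp_RR (α := (ℕ × ℕ) × ℕ) (f := fun x => x.1.2.unpair.1) (g := fun x => x.2)
        (by fun_prop) (by fun_prop)).not.to_re.of_eq fun x => ?_
      simp
    · refine (cp_RR (α := (ℕ × ℕ) × ℕ) (f := fun x => x.1.2.unpair.1) (g := fun x => x.2)
        (by fun_prop) (by fun_prop)).to_re.of_eq fun x => ?_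
      simp

theorem not_coh : ¬ Pool.Agent.Helper617.CR.COH NN := by
  classical
  intro hC
  obtain ⟨C, ⟨A1, A0, c1, c0, p, hp, hZ⟩, hinf, hcoh⟩ := hC XR XR_mem
  obtain ⟨σ1, hσ1, h1⟩ := smn (re_Vl c1 c0 true)
  obtain ⟨σ0, hσ0, h0⟩ := smn (re_Vl c1 c0 false)
  have heM : InM fun i => Nat.pair (σ1 (p i)) (σ0 (p i)) := (hp.comp hσ1).pair (hp.comp hσ0)
  set e : NN.M := mk _ heM with he
  have hre : ∀ᶠ i in (U : Filter ℕ), rep e i = Nat.pair (σ1 (p i)) (σ0 (p i)) := rep_mk heM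
  -- consistency of `A1` and `A0` on the numbers of the structure
  have hcon : ∀ c : ℕ → ℕ, InM c → ∀ᶠ i in (U : Filter ℕ), ∀ x ≤ c i,
      (A0 (p i) x ↔ ¬ A1 (p i) x) := by
    intro c hc
    by_contra hcon
    have hcon := ev_not.2 hcon
    have h2 : ∀ᶠ i in (U : Filter ℕ), ∃ x, x ≤ c i ∧ ¬ (A0 (p i) x ↔ ¬ A1 (p i) x) := by
      filter_upwards [hcon] with i hi
      by_contra h3
      apply hi
      intro x hx
      by_contra h4
      exact h3 ⟨x, hx, h4⟩
    obtain ⟨x, hx⟩ := h2.choice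
    have hxM : InM x := hc.mono (by filter_upwards [hx] with i hi using hi.1)
    have h3 := hZ (mk x hxM)
    have h4 : (∀ᶠ i in (U : Filter ℕ), A0 (p i) (x i)) ↔
        ¬ ∀ᶠ i in (U : Filter ℕ), A1 (p i) (x i) := by
      have h5 : (∀ᶠ i in (U : Filter ℕ), A0 (p i) (rep (mk x hxM) i)) ↔
          ∀ᶠ i in (U : Filter ℕ), A0 (p i) (x i) := by
        refine ev_congr ?_
        filter_upwards [rep_mk hxM] with i hi
        rw [hi]
      have h6 : (∀ᶠ i in (U : Filter ℕ), A1 (p i) (rep (mk x hxM) i)) ↔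
          ∀ᶠ i in (U : Filter ℕ), A1 (p i) (x i) := by
        refine ev_congr ?_
        filter_upwards [rep_mk hxM] with i hi
        rw [hi]
      rw [← h5, ← h6, ← h3.1, ← h3.2]
    rw [← ev_not] at h4
    have h5 : ∀ᶠ i in (U : Filter ℕ), (A0 (p i) (x i) ↔ ¬ A1 (p i) (x i)) := by
      by_cases h6 : ∀ᶠ i in (U : Filter ℕ), A0 (p i) (x i)
      · filter_upwards [h6, h4.1 h6] with i a1 a2 using ⟨fun _ => a2, fun _ => a1⟩
      · have h7 : ¬ ∀ᶠ i in (U : Filter ℕ), ¬ A1 (p i) (x i) := fun h => h6 (h4.2 h)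
        filter_upwards [ev_not.2 h6, ev_not.2 h7] with i a1 a2
        exact ⟨fun h => absurd h a1, fun h => absurd h a2⟩
    exact ev_false (h5.and hx) fun i hi => hi.2.2 hi.1
  -- the next element
  have hnext : ∀ t : ℕ → ℕ, InM t → ∃ c : ℕ → ℕ, InM c ∧
      ∀ᶠ i in (U : Filter ℕ), Nx A1 A0 (p i) (t i) (c i) := by
    intro t ht
    have h2 : ∃ y ∈ C, ¬ NN.lt y (mk t ht) := by
      by_contra h3
      push Not at h3
      exact hinf ⟨_, h3⟩
    obtain ⟨y, hy, hty⟩ := h2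
    have hty : ¬ ∀ᶠ i in (U : Filter ℕ), rep y i < rep (mk t ht) i := hty
    have hty := ev_not.2 hty
    have hy1 := (hZ y).1.1 hy
    have h3 : ∀ᶠ i in (U : Filter ℕ), ∃ c, c ≤ rep y i ∧ (t i ≤ c ∧ A1 (p i) c ∧
        ∀ c' < c, t i ≤ c' → ¬ A1 (p i) c') := by
      filter_upwards [hty, hy1, rep_mk ht] with i a1 a2 a3
      rw [a3, not_lt] at a1
      have hex : ∃ c, t i ≤ c ∧ A1 (p i) c := ⟨_, a1, a2⟩
      exact ⟨Nat.find hex, Nat.find_min' hex ⟨a1, a2⟩, (Nat.find_spec hex).1,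
        (Nat.find_spec hex).2, fun c' hc' h4 h5 => Nat.find_min hex hc' ⟨h4, h5⟩⟩
    obtain ⟨c, hc⟩ := h3.choice
    have hcM : InM c := (rep_inM y).mono (by filter_upwards [hc] with i hi using hi.1)
    refine ⟨c, hcM, ?_⟩
    filter_upwards [hc, hcon c hcM] with i a1 a2
    exact ⟨a1.2.1, a1.2.2.1, fun c' hc' h4 => (a2 c' hc'.le).2 (a1.2.2.2 c' hc' h4)⟩
  -- the value is determined by the next element
  have hval : ∀ t : ℕ → ℕ, InM t → ∀ᶠ i in (U : Filter ℕ),
      ((Vl A1 A0 true (p i) (Nat.pair (rep e i) (t i)) ∨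
        Vl A1 A0 false (p i) (Nat.pair (rep e i) (t i))) ∧
      ¬ (Vl A1 A0 true (p i) (Nat.pair (rep e i) (t i)) ∧
        Vl A1 A0 false (p i) (Nat.pair (rep e i) (t i)))) := by
    intro t ht
    obtain ⟨c, hcM, hc⟩ := hnext t ht
    filter_upwards [hc, hcon c hcM] with i a1 a2
    have huniq : ∀ c', Nx A1 A0 (p i) (t i) c' → c' = c i := by
      intro c' hc'
      rcases lt_trichotomy c' (c i) with h | h | h
      · exact absurd hc'.2.1 ((a2 c' h.le).1 (a1.2.2 c' h hc'.1))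
      · exact h
      · exact absurd a1.2.1 ((a2 (c i) le_rfl).1 (hc'.2.2 (c i) h a1.1))
    unfold Vl
    simp only [Nat.unpair_pair]
    constructor
    · by_cases h : RR (rep e i) (c i)
      · exact Or.inl ⟨c i, a1, by simp [h]⟩
      · exact Or.inr ⟨c i, a1, by simp [h]⟩
    · rintro ⟨⟨x, hx, hx'⟩, ⟨y, hy, hy'⟩⟩
      rw [huniq x hx] at hx'
      rw [huniq y hy] at hy'
      simp at hx' hy'
      exact hy' hx'
  -- a bound for the cohesiveness at `e`
  obtain ⟨b, v, hbv⟩ : ∃ b : NN.M, ∃ v : Bool, ∀ x ∈ C, ¬ NN.lt x b →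
      (NN.pair e x ∈ XR ↔ v = true) := by
    rcases hcoh e with ⟨b, hb⟩ | ⟨b, hb⟩
    · refine ⟨b, false, fun x hx hxb => ?_⟩
      simp only [Bool.false_eq_true, iff_false]
      intro h
      exact hxb (hb x ⟨hx, h⟩)
    · refine ⟨b, true, fun x hx hxb => ?_⟩
      simp only [iff_true]
      by_contra h
      exact hxb (hb x ⟨hx, h⟩)
  -- all values at or after `b` are `v`
  have hallv : ∀ t : ℕ → ℕ, InM t → (∀ᶠ i in (U : Filter ℕ), rep b i ≤ t i) →
      ∀ᶠ i in (U : Filter ℕ), Vl A1 A0 v (p i) (Nat.pair (rep e i) (t i)) := by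
    intro t ht hbt
    obtain ⟨c, hcM, hc⟩ := hnext t ht
    have h2 : mk c hcM ∈ C := (hZ _).1.2 (by
      filter_upwards [hc, rep_mk hcM] with i a1 a2
      rw [a2]
      exact a1.2.1)
    have h3 : ¬ NN.lt (mk c hcM) b := by
      intro h4
      have h4 := (lt_iff _ _).1 h4
      refine ev_false (h4.and ((rep_mk hcM).and (hc.and hbt))) ?_
      rintro i ⟨a1, a2, a3, a4⟩
      have := a3.1
      omega
    have h4 := hbv _ h2 h3
    rw [mem_XR] at h4
    have h5 : ∀ᶠ i in (U : Filter ℕ), (RR (rep e i) (c i) ↔ v = true) := by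
      rcases v with _ | _
      · simp only [Bool.false_eq_true, iff_false] at h4 ⊢
        have h4 := ev_not.2 h4
        filter_upwards [h4, rep_mk hcM] with i a1 a2
        rw [a2] at a1
        exact a1
      · simp only [iff_true] at h4 ⊢
        filter_upwards [h4, rep_mk hcM] with i a1 a2
        rw [a2] at a1
        exact a1
    filter_upwards [hc, h5] with i a1 a2
    unfold Vl
    simp only [Nat.unpair_pair]
    exact ⟨c i, a1, a2⟩
  -- a stage at which the value at `b` is known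
  have hstage : ∃ s : ℕ → ℕ, InM s ∧ ∀ᶠ i in (U : Filter ℕ), Kn (rep e i) (s i) (rep b i) := by
    have h2 : InM fun i => Nat.pair (rep e i) (rep b i) := (rep_inM e).pair (rep_inM b)
    have h3 : ∀ᶠ i in (U : Filter ℕ), ∃ s, Kn (rep e i) s (rep b i) := by
      filter_upwards [hallv _ (rep_inM b) (Eventually.of_forall fun i => le_rfl), hre]
        with i a1 a2
      rcases v with _ | _
      · obtain ⟨s, hs⟩ := (h0 _ _).1 a1
        refine ⟨s, Or.inr ?_⟩
        rw [show (rep e i).unpair.2 = σ0 (p i) by rw [a2]; simp]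
        exact hs
      · obtain ⟨s, hs⟩ := (h1 _ _).1 a1
        refine ⟨s, Or.inl ?_⟩
        rw [show (rep e i).unpair.1 = σ1 (p i) by rw [a2]; simp]
        exact hs
    obtain ⟨s, hs, h4⟩ := InM.wit (P := fun z s => Kn z.unpair.1 s z.unpair.2)
      (cp_Kn (α := ℕ × ℕ) (f := fun q => q.1.unpair.1) (g := fun q => q.2)
        (h := fun q => q.1.unpair.2) (by fun_prop) (by fun_prop) (by fun_prop)).to_re h2 (by
        simpa using h3)
    exact ⟨s, hs, by simpa using h4⟩
  obtain ⟨s, hsM, hs⟩ := hstage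
  -- a large element of the cohesive set
  obtain ⟨c, hcM, hc⟩ := hnext (fun i => max (s i) (rep b i) + 1)
    ((hsM.sup (rep_inM b)).add (InM.const 1))
  have hcC : mk c hcM ∈ C := (hZ _).1.2 (by
    filter_upwards [hc, rep_mk hcM] with i a1 a2
    rw [a2]
    exact a1.2.1)
  have hcb : ¬ NN.lt (mk c hcM) b := by
    intro h4
    have h4 := (lt_iff _ _).1 h4
    refine ev_false (h4.and ((rep_mk hcM).and hc)) ?_
    rintro i ⟨a1, a2, a3⟩
    have := a3.1
    omega
  have hRc := hbv _ hcC hcb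
  rw [mem_XR] at hRc
  -- the last known value before the stage `c`
  have hlast : ∀ᶠ i in (U : Filter ℕ), ∃ t, t < c i ∧ rep b i ≤ t ∧
      (Kn (rep e i) (c i) t ∧ ∀ t' < c i, t < t' → ¬ Kn (rep e i) (c i) t') := by
    filter_upwards [hs, hc] with i a1 a2
    have h2 : s i ≤ c i := by have := a2.1; omega
    have h3 : rep b i < c i := by have := a2.1; omega
    have h4 : Kn (rep e i) (c i) (rep b i) := by
      rcases a1 with h | h
      · exact Or.inl (wst_mono h2 h)
      · exact Or.inr (wst_mono h2 h)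
    have hb1 : rep b i ≤ c i - 1 := by omega
    refine ⟨Nat.findGreatest (fun t => Kn (rep e i) (c i) t) (c i - 1), ?_, ?_, ?_, ?_⟩
    · have := Nat.findGreatest_le (P := fun t => Kn (rep e i) (c i) t) (c i - 1)
      omega
    · exact Nat.le_findGreatest hb1 h4
    · exact Nat.findGreatest_spec (P := fun t => Kn (rep e i) (c i) t) hb1 h4
    · intro t' ht' h5 h6
      exact Nat.findGreatest_is_greatest (P := fun t => Kn (rep e i) (c i) t) h5 (by omega) h6
  obtain ⟨t, ht⟩ := hlast.choice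
  have htM : InM t := hcM.mono (by filter_upwards [ht] with i hi using hi.1.le)
  have h2 := hallv t htM (by filter_upwards [ht] with i hi using hi.2.1)
  have h3 := hval t htM
  -- contradiction
  have hfin : ∀ᶠ i in (U : Filter ℕ), (RR (rep e i) (c i) ↔ v = false) := by
    filter_upwards [h2, h3, ht, hre] with i a1 a2 a3 a4
    have huniq : ∀ t', t' < c i → (Kn (rep e i) (c i) t' ∧
        ∀ t'' < c i, t' < t'' → ¬ Kn (rep e i) (c i) t'') → t' = t i := by
      intro t' h4 h5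
      rcases lt_trichotomy t' (t i) with h | h | h
      · exact absurd a3.2.2.1 (h5.2 _ a3.1 h)
      · exact h
      · exact absurd h5.1 (a3.2.2.2 _ h4 h)
    have hR : RR (rep e i) (c i) ↔
        wst ℕ (rep e i).unpair.2 (c i) (Nat.pair (rep e i) (t i)) = true := by
      constructor
      · rintro ⟨t', h4, h5, h6⟩
        rw [huniq t' h4 h5] at h6
        exact h6
      · intro h4
        exact ⟨t i, a3.1, a3.2.2, h4⟩
    have e1 : (rep e i).unpair.1 = σ1 (p i) := by rw [a4]; simp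
    have e2 : (rep e i).unpair.2 = σ0 (p i) := by rw [a4]; simp
    rw [hR]
    rcases v with _ | _
    · simp only [iff_true]
      rcases a3.2.2.1 with h | h
      · rw [e1] at h
        exact absurd ⟨(h1 _ _).2 ⟨_, h⟩, a1⟩ a2.2
      · exact h
    · simp only [Bool.true_eq_false, iff_false]
      intro h
      rw [e2] at h
      exact a2.2 ⟨a1, (h0 _ _).2 ⟨_, h⟩⟩
  rcases v with _ | _
  · simp only [Bool.false_eq_true, iff_false] at hRc
    apply hRc
    filter_upwards [hfin, rep_mk hcM] with i a1 a2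
    rw [a2]
    exact a1.2 rfl
  · simp only [iff_true] at hRc
    refine ev_false (hRc.and (hfin.and (rep_mk hcM))) ?_
    rintro i ⟨a1, a2, a3⟩
    rw [a3] at a1
    have := a2.1 a1
    simp at this

end Pool.Agent.H869R3.DM
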