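import Pool.Agent.H869R3.DM.Dens

/-!
The domination principle and the induction scheme fail in the structure.
-/

namespace Pool.Agent.H869R3.DM

open Pool.Agent.Helper446 Pool.Agent.Helper446.RE Encodable Filter
open Pool.Agent.Helper617.RM

/-- a set given by a computable predicate -/
theorem sets_of_cp {P : ℕ → ℕ → Prop} (hP : ComputablePred fun a : ℕ × ℕ => P a.1 a.2)
    {q : ℕ → ℕ} (hq : InM q) :
    {x : NN.M | ∀ᶠ i in (U : Filter ℕ), P (q i) (rep x i)} ∈ NN.Sets :=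
  sets_of_UD (X := ∅) (A1 := fun _ _ => False) (A0 := fun _ _ => True) (p := fun _ => 0)
    (RE.const False) (RE.const True) (InM.const 0) computes_empty
    (S := fun _ a => P a.1 a.2) (UD.of_cp hP) hq

/-- the universal predicate -/
def UU (z : ℕ) : Prop :=
  ∃ a, a < z + 1 ∧ ∃ b, b < z + 1 ∧ ∃ c, c < z + 1 ∧ (z = prn a (prn b c) ∧ wst ℕ a c b = true)

theorem UU_prn {a b c : ℕ} : UU (prn a (prn b c)) ↔ wst ℕ a c b = true := by
  constructor
  · rintro ⟨a', _, b', _, c', _, h1, h2⟩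
    obtain ⟨rfl, h3⟩ := prn_inj h1
    obtain ⟨rfl, rfl⟩ := prn_inj h3
    exact h2
  · intro h
    have h1 := fst_le_prn a (prn b c)
    have h2 := snd_le_prn a (prn b c)
    have h3 := fst_le_prn b c
    have h4 := snd_le_prn b c
    exact ⟨a, by omega, b, by omega, c, by omega, rfl, h⟩

theorem cp_UU : ComputablePred fun a : ℕ × ℕ => UU a.2 := by
  unfold UU
  refine cp_ex (p := fun (q : ℕ × ℕ) a => ∃ b, b < q.2 + 1 ∧ ∃ c, c < q.2 + 1 ∧
    (q.2 = prn a (prn b c) ∧ wst ℕ a c b = true)) ?_ (by fun_prop)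
  refine cp_ex (p := fun (q : (ℕ × ℕ) × ℕ) b => ∃ c, c < q.1.2 + 1 ∧
    (q.1.2 = prn q.2 (prn b c) ∧ wst ℕ q.2 c b = true)) ?_ (by fun_prop)
  refine cp_ex (p := fun (q : ((ℕ × ℕ) × ℕ) × ℕ) c =>
    (q.1.1.2 = prn q.1.2 (prn q.2 c) ∧ wst ℕ q.1.2 c q.2 = true)) ?_ (by fun_prop)
  exact cp_and (cp_eq (by fun_prop) (by fun_prop)) (cp_bool (by fun_prop))

/-- the universal set -/
noncomputable def X0 : Set NN.M := {x | ∀ᶠ i in (U : Filter ℕ), UU (rep x i)}

theorem X0_mem : X0 ∈ NN.Sets := sets_of_cp (P := fun _ x => UU x) cp_UU (InM.const 0)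

theorem mem_X0 (a b c : NN.M) : NN.pair a (NN.pair b c) ∈ X0 ↔
    ∀ᶠ i in (U : Filter ℕ), wst ℕ (rep a i) (rep c i) (rep b i) = true := by
  refine ev_congr ?_
  filter_upwards [rep_pair a (NN.pair b c), rep_pair b c] with i e1 e2
  rw [e1, e2, UU_prn]

/-- the pairing of terms -/
def tpair {N : L2Structure.{0}} (s t : Term N) : Term N := .add (.mul (.add s t) (.add s t)) s

theorem not_dom : ¬ DOM NN := by
  intro hD
  obtain ⟨f, hf, hdom⟩ := hD X0 X0_mem
  obtain ⟨A1, A0, c1, c0, p, hp, hZ⟩ := hf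
  have hgraph : ∀ x y : NN.M, y = f x ↔
      ∀ᶠ i in (U : Filter ℕ), A1 (p i) (prn (rep x i) (rep y i)) := by
    intro x y
    have h1 : y = f x ↔ NN.pair x y ∈ {p | ∃ x y, y = f x ∧ p = NN.pair x y} :=
      (mem_codeRel (N := NN) (R := fun x y => y = f x)).symm
    rw [h1, (hZ _).1]
    refine ev_congr ?_
    filter_upwards [rep_pair x y] with i e1
    rw [e1]
  -- the index
  have hre : REPred fun w : ℕ => ∃ q z : ℕ, w = prn q z ∧ A1 q z := by
    refine RE.exN (p := fun w q => ∃ z, w = prn q z ∧ A1 q z) ?_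
    refine RE.exN (p := fun (w : ℕ × ℕ) z => w.1 = prn w.2 z ∧ A1 w.2 z) ?_
    refine RE.and (RE.eq (by fun_prop) (by fun_prop)) ?_
    exact RE.comp c1 (f := fun w : (ℕ × ℕ) × ℕ => (w.1.2, w.2)) (by fun_prop)
  obtain ⟨e0, he0⟩ := wst_univ (α := ℕ) hre
  have hidx : ∀ q z : ℕ, A1 q z ↔ ∃ s, wst ℕ e0 s (prn q z) = true := by
    intro q z
    rw [← he0]
    constructor
    · intro h; exact ⟨q, z, rfl, h⟩
    · rintro ⟨q', z', h1, h2⟩
      obtain ⟨rfl, rfl⟩ := prn_inj h1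
      exact h2
  set pp : NN.M := mk p hp with hpp
  set ee : NN.M := mk (fun _ => e0) (InM.const e0) with hee
  have key : ∀ x y : NN.M, y = f x ↔ ∃ k : NN.M,
      NN.pair ee (NN.pair (NN.pair pp (NN.pair x y)) k) ∈ X0 := by
    intro x y
    rw [hgraph]
    constructor
    · intro h
      have h2 : InM fun i => prn (p i) (prn (rep x i) (rep y i)) :=
        hp.prn ((rep_inM x).prn (rep_inM y))
      obtain ⟨s, hs, h3⟩ := InM.wit (P := fun z s => wst ℕ e0 s z = true)
        (RE.of_bool (f := fun q : ℕ × ℕ => wst ℕ e0 q.2 q.1) (by fun_prop)) h2 (by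
          filter_upwards [h] with i hi
          exact (hidx _ _).1 hi)
      refine ⟨mk s hs, (mem_X0 _ _ _).2 ?_⟩
      filter_upwards [h3, rep_mk hs, rep_mk (InM.const e0), rep_pair pp (NN.pair x y),
        rep_pair x y, rep_mk hp] with i a1 a2 a3 a4 a5 a6
      rw [a2, a3, a4, a5, a6]
      exact a1
    · rintro ⟨k, hk⟩
      have hk := (mem_X0 _ _ _).1 hk
      filter_upwards [hk, rep_mk (InM.const e0), rep_pair pp (NN.pair x y),
        rep_pair x y, rep_mk hp] with i a1 a3 a4 a5 a6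
      rw [a3, a4, a5, a6] at a1
      exact (hidx _ _).2 ⟨_, a1⟩
  -- the function `f + 1`
  have hg : ComputableIn NN X0 (fun x => NN.add (f x) NN.one) := by
    refine ⟨.neg (.ball (.var 1) (.neg (.and (.eq (.var 2) (.add (.var 0) .one))
      (.mem (tpair (.const ee) (tpair (tpair (.const pp) (tpair (.var 3) (.var 0))) (.var 1)))
        ⟨X0, rfl⟩)))), fun _ => NN.zero, fun x y => ?_⟩
    have h1 : ∀ k : NN.M, (Delta0.neg (.ball (.var 1) (.neg (.and (.eq (.var 2)
        (.add (.var 0) .one)) (.mem (tpair (.const ee) (tpair (tpair (.const pp)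
        (tpair (.var 3) (.var 0))) (.var 1))) ⟨X0, rfl⟩)))) : Delta0 (only NN X0)).Holds
        (cons k (cons y (cons x fun _ => NN.zero))) ↔
        ¬ ∀ a : NN.M, NN.lt a y → ¬ (y = NN.add a NN.one ∧
          NN.pair ee (NN.pair (NN.pair pp (NN.pair x a)) k) ∈ X0) := fun k => Iff.rfl
    refine Iff.trans ?_ (exists_congr fun k => (h1 k).symm)
    constructor
    · intro h
      obtain ⟨k, hk⟩ := (key x (f x)).1 rfl
      refine ⟨k, fun h2 => h2 (f x) ?_ ⟨h, hk⟩⟩
      rw [h]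
      refine (lt_iff _ _).2 ?_
      filter_upwards [rep_add (f x) NN.one, rep_one] with i a1 a2
      rw [a1, a2]
      omega
    · rintro ⟨k, hk⟩
      push Not at hk
      obtain ⟨a, -, h2, h3⟩ := hk
      have h4 : a = f x := (key x a).2 ⟨k, h3⟩
      rw [h2, h4]
  obtain ⟨b, hb⟩ := hdom _ hg
  have h1 : NN.lt b (NN.add b NN.one) := (lt_iff _ _).2 (by
    filter_upwards [rep_add b NN.one, rep_one] with i a1 a2
    rw [a1, a2]
    omega)
  have h2 := (le_iff' _ _).1 (hb _ h1)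
  refine ev_false (h2.and ((rep_add (f (NN.add b NN.one)) NN.one).and rep_one)) ?_
  rintro i ⟨a1, a2, a3⟩
  rw [a2, a3] at a1
  omega

/-! ### induction -/

/-- the predicate `z = prn (prn n s) (B x s n)` -/
def PB (x z : ℕ) : Prop :=
  ∃ n, n < z + 1 ∧ ∃ s, s < z + 1 ∧ z = prn (prn n s) (B x s n)

theorem cp_PB : ComputablePred fun a : ℕ × ℕ => PB a.1 a.2 := by
  unfold PB
  refine cp_ex (p := fun (q : ℕ × ℕ) n => ∃ s, s < q.2 + 1 ∧ q.2 = prn (prn n s) (B q.1 s n)) ?_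
    (by fun_prop)
  refine cp_ex (p := fun (q : (ℕ × ℕ) × ℕ) s => q.1.2 = prn (prn q.2 s) (B q.1.1 s q.2)) ?_
    (by fun_prop)
  exact cp_eq (by fun_prop) (by fun_prop)

theorem PB_prn {x n s z : ℕ} : PB x (prn (prn n s) z) ↔ z = B x s n := by
  constructor
  · rintro ⟨n', _, s', _, h1⟩
    obtain ⟨h2, h3⟩ := prn_inj h1
    obtain ⟨rfl, rfl⟩ := prn_inj h2
    exact h3
  · rintro rfl
    have h1 := fst_le_prn (prn n s) (B x s n)
    have h2 := fst_le_prn n s
    have h3 := snd_le_prn n s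
    exact ⟨n, by omega, s, by omega, rfl⟩

noncomputable def XB : Set NN.M := {x | ∀ᶠ i in (U : Filter ℕ), PB i (rep x i)}

theorem XB_mem : XB ∈ NN.Sets := sets_of_cp (P := fun x z => PB x z) cp_PB InM.id

theorem mem_XB (n s z : NN.M) : NN.pair (NN.pair n s) z ∈ XB ↔
    ∀ᶠ i in (U : Filter ℕ), rep z i = B i (rep s i) (rep n i) := by
  refine ev_congr ?_
  filter_upwards [rep_pair (NN.pair n s) z, rep_pair n s] with i e1 e2
  rw [e1, e2, PB_prn]

/-- the `Σ⁰₂` formula: the stages of the `n`-th iterate are bounded -/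
noncomputable def phi : AForm NN :=
  .neg (.all (.neg (.all (.all (.neg (.and (.mem (tpair (tpair (.var 3) (.var 1)) (.var 0))
    ⟨XB, XB_mem⟩) (.lt (.var 2) (.var 0))))))))

theorem phi_iff (n : NN.M) (v : ℕ → NN.M) : phi.Holds (cons n v) ↔
    ∃ y : NN.M, ∀ s : NN.M, ∀ᶠ i in (U : Filter ℕ), B i (rep s i) (rep n i) ≤ rep y i := by
  have h1 : phi.Holds (cons n v) ↔ ¬ ∀ y : NN.M, ¬ ∀ s z : NN.M,
    ¬ (NN.pair (NN.pair n s) z ∈ XB ∧ NN.lt y z) := Iff.rfl
  rw [h1]
  push Not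
  refine exists_congr fun y => forall_congr' fun s => ?_
  have hz : InM fun i => B i (rep s i) (rep n i) := by
    have h2 := (InM.id.pair (rep_inM s)).comp2 (rep_inM n)
      (f := fun a b => B a.unpair.1 a.unpair.2 b) (by fun_prop)
    simpa using h2
  constructor
  · intro h
    have h2 := h (mk _ hz) ((mem_XB _ _ _).2 (rep_mk hz))
    have h3 : ¬ ∀ᶠ i in (U : Filter ℕ), rep y i < rep (mk _ hz) i := h2
    have h3 := ev_not.2 h3
    filter_upwards [h3, rep_mk hz] with i e1 e2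
    rw [e2] at e1
    omega
  · intro h z hz' hlt
    have h2 := (mem_XB _ _ _).1 hz'
    have h3 := (lt_iff _ _).1 hlt
    refine ev_false (h.and (h2.and h3)) ?_
    rintro i ⟨e1, e2, e3⟩
    omega

theorem phi_small {n : NN.M} {m : ℕ} (h : ∀ s : NN.M, ∀ᶠ i in (U : Filter ℕ),
    B i (rep s i) (rep n i) ≤ Bl i m) : ∀ᶠ i in (U : Filter ℕ), rep n i ≤ m := by
  have h1 := h (mk _ (InM.bl (m + 1)))
  filter_upwards [h1, rep_mk (InM.bl (m + 1))] with i e1 e2
  rw [e2] at e1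
  by_contra hcon
  push Not at hcon
  have h2 : B i (Bl i (m + 1)) (m + 1) = Bl i (m + 1) := B_eq le_rfl
  have h3 := (B_strictMono i (Bl i (m + 1))).monotone hcon
  have h4 := Bl_strictMono i (Nat.lt_succ_self m)
  simp only [Nat.succ_eq_add_one] at *
  omega

theorem not_ind : ¬ ArithInd NN := by
  intro h
  have h1 := h phi (fun _ => NN.zero) ?_ (fun n hn => ?_) (mk (fun i => i) InM.id)
  · rw [phi_iff] at h1
    obtain ⟨y, hy⟩ := h1
    obtain ⟨m, hm⟩ := rep_inM y
    have h2 := phi_small (m := m) fun s => by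
      filter_upwards [hy s, hm] with i e1 e2 using e1.trans e2
    refine ev_false (h2.and ((rep_mk InM.id).and (ev_ge (m + 1)))) ?_
    rintro i ⟨e1, e2, e3⟩
    rw [e2] at e1
    omega
  · rw [phi_iff]
    refine ⟨mk (fun i => i) InM.id, fun s => ?_⟩
    filter_upwards [rep_mk InM.id, rep_zero] with i e1 e2
    rw [e1, e2]
    exact le_rfl
  · rw [phi_iff] at hn ⊢
    obtain ⟨y, hy⟩ := hn
    obtain ⟨m, hm⟩ := rep_inM y
    have h2 := phi_small (m := m) fun s => by
      filter_upwards [hy s, hm] with i e1 e2 using e1.trans e2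
    refine ⟨mk _ (InM.bl (m + 1)), fun s => ?_⟩
    filter_upwards [h2, rep_mk (InM.bl (m + 1)), rep_add n NN.one, rep_one] with i e1 e2 e3 e4
    rw [e2, e3, e4]
    exact (B_le_Bl _ _ _).trans ((Bl_strictMono i).monotone (by omega))

end Pool.Agent.H869R3.DM
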