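import Pool.Agent.H869R3.DM.Model

/-!
The structure is a model of `RCA₀` and of the bounding scheme for `Σ⁰₂` formulas.
-/

namespace Pool.Agent.H869R3.DM

open Pool.Agent.Helper446 Pool.Agent.Helper446.RE Encodable Filter
open Pool.Agent.Helper617.RM

theorem nn_ext {x y : NN.M} : x = y ↔ ∀ᶠ i in (U : Filter ℕ), rep x i = rep y i := mm_ext

/-- the value of an `SC` predicate at a number, the other variables being fixed -/
theorem SC.at1 {R : (ℕ → MM) → Prop} (hR : SC R) (v : ℕ → MM) :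
    ∃ A : ℕ → ℕ → Prop, REPred (fun q : ℕ × ℕ => A q.1 q.2) ∧ ∃ p : ℕ → ℕ, InM p ∧
      ∀ x, R (cons x v) ↔ ∀ᶠ i in (U : Filter ℕ), A (p i) (rep x i) := by
  obtain ⟨n0, hR⟩ := hR
  obtain ⟨A, cA, p, hp, h⟩ := hR (n0 + 1) (by omega)
  refine ⟨fun z x => A (Denumerable.ofNat (ℕ × List ℕ) z).1
    (x :: (Denumerable.ofNat (ℕ × List ℕ) z).2), ?_, fun i => encode (p i, vec n0 v i),
    hp.pair (vec_inM n0 v), fun x => ?_⟩
  · have h2 : REPred fun q : (ℕ × List ℕ) × ℕ => A q.1.1 (q.2 :: q.1.2) :=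
      RE.comp cA (f := fun q : (ℕ × List ℕ) × ℕ => (q.1.1, q.2 :: q.1.2)) (by fun_prop)
    have h3 : Computable fun q : ℕ × ℕ => (Denumerable.ofNat (ℕ × List ℕ) q.1, q.2) :=
      ((Computable.ofNat (ℕ × List ℕ)).comp Computable.fst).pair Computable.snd
    exact RE.comp h2 h3
  · rw [h]
    simp only [vec_cons, Denumerable.ofNat_encode]

theorem SC.ind {R : (ℕ → MM) → Prop} (hR : SC R) (v : ℕ → MM) (h0 : R (cons NN.zero v))
    (hs : ∀ n, R (cons n v) → R (cons (NN.add n NN.one) v)) (n : MM) : R (cons n v) := by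
  classical
  obtain ⟨A, _, p, _, hA⟩ := hR.at1 v
  by_contra hn
  rw [hA, ← ev_not] at hn
  have h1 : ∀ᶠ i in (U : Filter ℕ), ∃ x, x ≤ rep n i ∧ ¬ A (p i) x ∧
      ∀ y < x, A (p i) y := by
    filter_upwards [hn] with i hi
    have hex : ∃ x, ¬ A (p i) x := ⟨_, hi⟩
    exact ⟨Nat.find hex, Nat.find_min' hex hi, Nat.find_spec hex,
      fun y hy => not_not.1 (Nat.find_min hex hy)⟩
  obtain ⟨x, hx⟩ := h1.choice
  have h2 : ∀ᶠ i in (U : Filter ℕ), x i ≠ 0 := by
    filter_upwards [hx, (hA _).1 h0, rep_zero] with i e1 e2 e3 e4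
    rw [e4] at e1
    rw [e3] at e2
    exact e1.2.1 e2
  have hz : InM fun i => x i - 1 := (rep_inM n).mono (by
    filter_upwards [hx] with i hi
    exact (Nat.sub_le _ _).trans hi.1)
  have h3 : R (cons (mk _ hz) v) := by
    rw [hA]
    filter_upwards [hx, rep_mk hz, h2] with i e1 e2 e3
    rw [e2]
    exact e1.2.2 _ (by omega)
  have h4 := (hA _).1 (hs _ h3)
  refine ev_false (h4.and (hx.and ((rep_mk hz).and (h2.and
    ((rep_add (mk _ hz) NN.one).and rep_one))))) ?_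
  rintro i ⟨e1, e2, e3, e4, e5, e6⟩
  rw [e5, e6, e3] at e1
  have e7 : x i - 1 + 1 = x i := by omega
  rw [e7] at e1
  exact e2.2.1 e1

theorem sets_of_SC {R R' : (ℕ → MM) → Prop} (h1 : SC R) (h2 : SC R') (v : ℕ → MM)
    (h : ∀ n, ¬ R (cons n v) ↔ R' (cons n v)) :
    {n : NN.M | R (cons n v)} ∈ NN.Sets := by
  obtain ⟨A1, c1, p1, i1, e1⟩ := h1.at1 v
  obtain ⟨A0, c0, p0, i0, e0⟩ := h2.at1 v
  refine ⟨fun z x => A1 z.unpair.1 x, fun z x => A0 z.unpair.2 x, ?_, ?_,
    fun i => Nat.pair (p1 i) (p0 i), i1.pair i0, fun x => ⟨?_, ?_⟩⟩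
  · exact RE.comp c1 (f := fun q : ℕ × ℕ => (q.1.unpair.1, q.2)) (by fun_prop)
  · exact RE.comp c0 (f := fun q : ℕ × ℕ => (q.1.unpair.2, q.2)) (by fun_prop)
  · simp only [Nat.unpair_pair]
    exact e1 x
  · simp only [Nat.unpair_pair]
    exact (h x).trans (e0 x)

instance isModel : IsModelRCA0 NN where
  ax_succ_ne_zero n := by
    intro h
    rw [nn_ext] at h
    refine ev_false (h.and ((rep_add n NN.one).and (rep_one.and rep_zero))) ?_
    rintro i ⟨e1, e2, e3, e4⟩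
    rw [e2, e3, e4] at e1
    omega
  ax_succ_inj m n h := by
    rw [nn_ext] at h ⊢
    filter_upwards [h, rep_add m NN.one, rep_add n NN.one] with i e1 e2 e3
    rw [e2, e3] at e1
    omega
  ax_add_zero m := by
    rw [nn_ext]
    filter_upwards [rep_add m NN.zero, rep_zero] with i e1 e2
    rw [e1, e2, Nat.add_zero]
  ax_add_succ m n := by
    rw [nn_ext]
    filter_upwards [rep_add m (NN.add n NN.one), rep_add n NN.one, rep_add (NN.add m n) NN.one,
      rep_add m n] with i e1 e2 e3 e4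
    rw [e1, e2, e3, e4]
    ring
  ax_mul_zero m := by
    rw [nn_ext]
    filter_upwards [rep_mul m NN.zero, rep_zero] with i e1 e2
    rw [e1, e2, Nat.mul_zero]
  ax_mul_succ m n := by
    rw [nn_ext]
    filter_upwards [rep_mul m (NN.add n NN.one), rep_add n NN.one, rep_add (NN.mul m n) m,
      rep_mul m n, rep_one] with i e1 e2 e3 e4 e5
    rw [e1, e2, e3, e4, e5]
    ring
  ax_not_lt_zero m := by
    intro h
    have h := (lt_iff _ _).1 h
    refine ev_false (h.and rep_zero) ?_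
    rintro i ⟨e1, e2⟩
    omega
  ax_lt_succ m n := by
    rw [lt_iff, lt_iff, nn_ext, ← ev_or]
    refine ev_congr ?_
    filter_upwards [rep_add n NN.one, rep_one] with i e1 e2
    rw [e1, e2]
    omega
  sigma1_induction θ v h0 hs n := by
    exact SC.ind (R := fun w => ∃ k, θ.Holds (cons k w)) (delta0_SC θ).1.ex v h0 hs n
  delta1_comprehension θ ψ v h := by
    refine sets_of_SC (R := fun w => ∃ k, θ.Holds (cons k w)) (delta0_SC θ).1.ex
      (delta0_SC ψ).2.ex v fun n => ?_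
    rw [h n]
    push Not
    rfl

/-- the bounding scheme for `Σ⁰₂` formulas holds -/
theorem bounding2 : Pool.Agent.Helper617.FS.SigmaTwoBounding NN := by
  classical
  intro θ v a h
  obtain ⟨n0, hR⟩ := (delta0_SC θ).2.ex
  obtain ⟨A, -, p, hp, hA⟩ := hR (n0 + 3) (by omega)
  have key : ∀ k j x : MM, (¬ ∀ l, θ.Holds (cons l (cons k (cons j (cons x v))))) ↔
      ∀ᶠ i in (U : Filter ℕ), A (p i) (rep k i :: rep j i :: rep x i :: vec n0 v i) := by
    intro k j x
    push Not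
    refine (hA (cons k (cons j (cons x v)))).trans ?_
    simp only [vec_cons]
  -- the internal bounding statement
  set G : ℕ → ℕ → Prop := fun i d => ∀ x < rep a i, ∃ j < d, ∃ k < d,
    ¬ A (p i) (k :: j :: x :: vec n0 v i) with hG
  have hmono : ∀ i d d', d ≤ d' → G i d → G i d' := by
    intro i d d' hd hg x hx
    obtain ⟨j, hj, k, hk, h1⟩ := hg x hx
    exact ⟨j, by omega, k, by omega, h1⟩
  have hex : ∃ n, ∀ᶠ i in (U : Filter ℕ), G i (Bl i n) := by
    by_contra hcon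
    push Not at hcon
    have h1 : ∀ n, ∀ᶠ i in (U : Filter ℕ), ¬ G i (Bl i n) := fun n => hcon n
    -- the largest index at which the bound fails
    let Nn : ℕ → ℕ := fun i => Nat.findGreatest (fun n => ¬ G i (Bl i n)) i
    have h2 : ∀ᶠ i in (U : Filter ℕ), ¬ G i (Bl i (Nn i)) := by
      filter_upwards [h1 0] with i hi
      exact Nat.findGreatest_spec (P := fun n => ¬ G i (Bl i n)) (Nat.zero_le i) hi
    have h3 : ∀ n, ∀ᶠ i in (U : Filter ℕ), n ≤ Nn i := by
      intro n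
      filter_upwards [h1 n, ev_ge n] with i hi hi'
      exact Nat.le_findGreatest hi' hi
    have h4 : ∀ᶠ i in (U : Filter ℕ), ∃ x, x < rep a i ∧ ∀ j < Bl i (Nn i), ∀ k < Bl i (Nn i),
        A (p i) (k :: j :: x :: vec n0 v i) := by
      filter_upwards [h2] with i hi
      simp only [hG] at hi
      push Not at hi
      exact hi
    obtain ⟨x, hx⟩ := h4.choice
    have hxM : InM x := (rep_inM a).mono (by filter_upwards [hx] with i hi using hi.1.le)
    obtain ⟨j, k, hjk⟩ := h (mk x hxM) ((lt_iff _ _).2 (by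
      filter_upwards [hx, rep_mk hxM] with i e1 e2
      rw [e2]
      exact e1.1))
    obtain ⟨n1, hn1⟩ := rep_inM j
    obtain ⟨n2, hn2⟩ := rep_inM k
    refine (not_iff_not.2 (key k j (mk x hxM))).1 (not_not.2 hjk) ?_
    filter_upwards [hx, rep_mk hxM, hn1, hn2, h3 (n1 + 1), h3 (n2 + 1)] with i e1 e2 e3 e4 e5 e6
    rw [e2]
    refine e1.2 _ ?_ _ ?_
    · exact lt_of_le_of_lt e3 (Bl_strictMono i (by omega))
    · exact lt_of_le_of_lt e4 (Bl_strictMono i (by omega))
  obtain ⟨n, hn⟩ := hex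
  refine ⟨mk _ (InM.bl n), fun x hx => ?_⟩
  have hx := (lt_iff _ _).1 hx
  have h5 : ∀ᶠ i in (U : Filter ℕ), ∃ q : ℕ × ℕ, q.1 < Bl i n ∧ q.2 < Bl i n ∧
      ¬ A (p i) (q.2 :: q.1 :: rep x i :: vec n0 v i) := by
    filter_upwards [hn, hx] with i e1 e2
    obtain ⟨j, hj, k, hk, h6⟩ := e1 _ e2
    exact ⟨(j, k), hj, hk, h6⟩
  obtain ⟨q, hq⟩ := h5.choice
  have i1 : InM fun i => (q i).1 := (InM.bl n).mono (by
    filter_upwards [hq] with i hi using hi.1.le)
  have i2 : InM fun i => (q i).2 := (InM.bl n).mono (by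
    filter_upwards [hq] with i hi using hi.2.1.le)
  refine ⟨mk _ i1, (lt_iff _ _).2 ?_, mk _ i2, ?_⟩
  · filter_upwards [hq, rep_mk i1, rep_mk (InM.bl n)] with i e1 e2 e3
    rw [e2, e3]
    exact e1.1
  · by_contra hcon
    have h6 := (key _ _ _).1 hcon
    refine ev_false (h6.and (hq.and ((rep_mk i1).and (rep_mk i2)))) ?_
    rintro i ⟨e1, e2, e3, e4⟩
    rw [e3, e4] at e1
    exact e2.2.2 e1

end Pool.Agent.H869R3.DM
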