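import Pool.Agent.Helper446.Comp

/-!
Standard part: the settling function `W` of the universal enumeration, its stages, its iterates,
and internal sequences below one of the iterates.
-/

namespace Pool.Agent.H869R3.DM

open Pool.Agent.Helper446 Pool.Agent.Helper446.RE Encodable Nat.Partrec Filter

/-- `w` is above `x` and all computations with index and input at most `x` that halt in `s` steps
halt in `w` steps -/
def Wp (x s w : ℕ) : Prop :=
  x < w ∧ ∀ e < x + 1, ∀ p < x + 1, wst ℕ e s p = true → wst ℕ e w p = true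

theorem Wp_ex (x s : ℕ) : ∃ w, Wp x s w :=
  ⟨max (x + 1) s, by omega, fun e _ p _ h => wst_mono (le_max_right _ _) h⟩

theorem c_wst : Computable fun q : ℕ × ℕ × ℕ => wst ℕ q.1 q.2.1 q.2.2 :=
  wst_comp.comp (f := fun p : (ℕ × ℕ) × ℕ => wst ℕ p.1.1 p.1.2 p.2)
    (g := fun q : ℕ × ℕ × ℕ => ((q.1, q.2.1), q.2.2)) (by fun_prop)

@[fun_prop] theorem c_wst' {α : Type*} [Primcodable α] {f g h : α → ℕ} (hf : Computable f)
    (hg : Computable g) (hh : Computable h) : Computable fun a => wst ℕ (f a) (g a) (h a) :=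
  c_wst.comp (g := fun a => (f a, g a, h a)) (by fun_prop)

/-- computable predicates are closed under bounded universal quantification -/
theorem cp_all {α : Type*} [Primcodable α] {p : α → ℕ → Prop}
    (hp : ComputablePred fun x : α × ℕ => p x.1 x.2) {f : α → ℕ}
    (hf : Computable f) : ComputablePred fun a => ∀ i < f a, p a i := by
  refine cp_of_re (all_lt (of_comput hp) hf) ?_
  have h : REPred fun a => ∃ i, i < f a ∧ ¬ p a i := by
    refine exN (p := fun a i => i < f a ∧ ¬ p a i) (RE.and (RE.lt ?_ ?_) ?_)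
    · fun_prop
    · fun_prop
    · exact (ComputablePred.not hp).to_re
  refine h.of_eq fun a => ?_
  push Not
  rfl

theorem cp_and {α : Type*} [Primcodable α] {p q : α → Prop} (hp : ComputablePred p)
    (hq : ComputablePred q) : ComputablePred fun a => p a ∧ q a := by
  refine cp_of_re (RE.and hp.to_re hq.to_re) ?_
  refine (RE.or hp.not.to_re hq.not.to_re).of_eq fun a => ?_
  tauto

theorem cp_or {α : Type*} [Primcodable α] {p q : α → Prop} (hp : ComputablePred p)
    (hq : ComputablePred q) : ComputablePred fun a => p a ∨ q a := by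
  refine cp_of_re (RE.or hp.to_re hq.to_re) ?_
  refine (RE.and hp.not.to_re hq.not.to_re).of_eq fun a => ?_
  tauto

theorem cp_imp {α : Type*} [Primcodable α] {p q : α → Prop} (hp : ComputablePred p)
    (hq : ComputablePred q) : ComputablePred fun a => p a → q a := by
  refine (cp_or hp.not hq).of_eq fun a => ?_
  tauto

theorem cp_ex {α : Type*} [Primcodable α] {p : α → ℕ → Prop}
    (hp : ComputablePred fun x : α × ℕ => p x.1 x.2) {f : α → ℕ}
    (hf : Computable f) : ComputablePred fun a => ∃ i, i < f a ∧ p a i := by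
  refine (cp_all (p := fun a i => ¬ p a i) hp.not hf).not.of_eq fun a => ?_
  push Not
  rfl

theorem cp_bool {α : Type*} [Primcodable α] {f : α → Bool} (hf : Computable f) :
    ComputablePred fun a => f a = true :=
  cp_eq (g := fun _ => true) hf (by fun_prop)

theorem cp_Wp {α : Type*} [Primcodable α] {f g h : α → ℕ} (hf : Computable f)
    (hg : Computable g) (hh : Computable h) : ComputablePred fun a => Wp (f a) (g a) (h a) := by
  unfold Wp
  refine cp_and (cp_lt hf hh) (cp_all (p := fun a e => ∀ p < f a + 1,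
    wst ℕ e (g a) p = true → wst ℕ e (h a) p = true) ?_ (by fun_prop))
  refine cp_all (p := fun (a : α × ℕ) p => wst ℕ a.2 (g a.1) p = true →
    wst ℕ a.2 (h a.1) p = true) ?_ (by fun_prop)
  refine cp_imp (cp_bool ?_) (cp_bool ?_) <;> fun_prop

open Classical in
/-- the least such `w` -/
noncomputable def W (x s : ℕ) : ℕ := Nat.find (Wp_ex x s)

theorem W_spec (x s : ℕ) : Wp x s (W x s) := by
  classical
  exact Nat.find_spec (Wp_ex x s)

theorem W_le {x s w : ℕ} (h : Wp x s w) : W x s ≤ w := by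
  classical
  exact Nat.find_min' (Wp_ex x s) h

/-- a function defined by bounded-free search of a computable predicate is computable -/
theorem c_find {α : Type*} [Primcodable α] {p : α → ℕ → Prop}
    (hp : ComputablePred fun x : α × ℕ => p x.1 x.2) {f : α → ℕ}
    (h1 : ∀ a, p a (f a)) (h2 : ∀ a k, k < f a → ¬ p a k) : Computable f := by
  refine computable_of_graph ?_
  have h : ComputablePred fun x : α × ℕ => p x.1 x.2 ∧ ∀ k < x.2, ¬ p x.1 k := by
    refine cp_and hp (cp_all (p := fun (x : α × ℕ) k => ¬ p x.1 k) ?_ (by fun_prop))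
    exact (cp_comp (p := fun x : α × ℕ => p x.1 x.2) hp
      (f := fun x : (α × ℕ) × ℕ => (x.1.1, x.2)) (by fun_prop)).not
  refine h.to_re.of_eq fun x => ?_
  constructor
  · rintro ⟨h3, h4⟩
    rcases lt_trichotomy (f x.1) x.2 with h5 | h5 | h5
    · exact absurd (h1 x.1) (h4 _ h5)
    · exact h5
    · exact absurd h3 (h2 _ _ h5)
  · intro h5
    rw [← h5]
    exact ⟨h1 _, fun k hk => h2 _ k hk⟩

@[fun_prop] theorem c_W {α : Type*} [Primcodable α] {f g : α → ℕ} (hf : Computable f)
    (hg : Computable g) : Computable fun a => W (f a) (g a) := by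
  classical
  refine c_find (p := fun a w => Wp (f a) (g a) w) ?_ (fun a => W_spec _ _) fun a k hk =>
    Nat.find_min (Wp_ex _ _) hk
  refine cp_Wp ?_ ?_ ?_ <;> fun_prop

theorem exists_settle (x : ℕ) : ∃ w, x < w ∧ ∀ e < x + 1, ∀ p < x + 1,
    (∃ s, wst ℕ e s p = true) → wst ℕ e w p = true := by
  classical
  have h : ∀ q : ℕ × ℕ, ∃ w, (∃ s, wst ℕ q.1 s q.2 = true) → wst ℕ q.1 w q.2 = true := by
    intro q
    by_cases hq : ∃ s, wst ℕ q.1 s q.2 = true
    · exact ⟨hq.choose, fun _ => hq.choose_spec⟩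
    · exact ⟨0, fun h => absurd h hq⟩
  choose g hg using h
  refine ⟨max (x + 1) ((Finset.range (x + 1) ×ˢ Finset.range (x + 1)).sup g), by omega, ?_⟩
  intro e he p hp hs
  refine wst_mono (le_trans ?_ (le_max_right _ _)) (hg (e, p) hs)
  exact Finset.le_sup (f := g) (Finset.mem_product.2 ⟨Finset.mem_range.2 he,
    Finset.mem_range.2 hp⟩)

open Classical in
/-- the settling time -/
noncomputable def Wl (x : ℕ) : ℕ := Nat.find (exists_settle x)

theorem Wl_spec (x : ℕ) : x < Wl x ∧ ∀ e < x + 1, ∀ p < x + 1,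
    (∃ s, wst ℕ e s p = true) → wst ℕ e (Wl x) p = true := by
  classical
  exact Nat.find_spec (exists_settle x)

theorem Wl_le {x w : ℕ} (h : x < w ∧ ∀ e < x + 1, ∀ p < x + 1,
    (∃ s, wst ℕ e s p = true) → wst ℕ e w p = true) : Wl x ≤ w := by
  classical
  exact Nat.find_min' (exists_settle x) h

theorem lt_Wl (x : ℕ) : x < Wl x := (Wl_spec x).1

theorem Wl_mono {x y : ℕ} (h : x ≤ y) : Wl x ≤ Wl y := by
  refine Wl_le ⟨lt_of_le_of_lt h (lt_Wl y), fun e he p hp hs => ?_⟩
  exact (Wl_spec y).2 e (by omega) p (by omega) hs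

theorem lt_W (x s : ℕ) : x < W x s := (W_spec x s).1

theorem W_mono {x y s : ℕ} (h : x ≤ y) : W x s ≤ W y s := by
  refine W_le ⟨lt_of_le_of_lt h (lt_W y s), fun e he p hp hs => ?_⟩
  exact (W_spec y s).2 e (by omega) p (by omega) hs

theorem W_le_Wl (x s : ℕ) : W x s ≤ Wl x :=
  W_le ⟨lt_Wl x, fun e he p hp hs => (Wl_spec x).2 e he p hp ⟨s, hs⟩⟩

theorem W_eq {x s : ℕ} (h : Wl x ≤ s) : W x s = Wl x := by
  refine le_antisymm (W_le_Wl x s) (Wl_le ⟨lt_W x s, fun e he p hp hs => ?_⟩)
  exact (W_spec x s).2 e he p hp (wst_mono h ((Wl_spec x).2 e he p hp hs))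

/-- the stage `s` iterates -/
noncomputable def B (x0 s n : ℕ) : ℕ := Nat.rec x0 (fun _ y => W y s) n

@[simp] theorem B_zero (x0 s : ℕ) : B x0 s 0 = x0 := rfl
theorem B_succ (x0 s n : ℕ) : B x0 s (n + 1) = W (B x0 s n) s := rfl

@[fun_prop] theorem c_B {α : Type*} [Primcodable α] {f g h : α → ℕ} (hf : Computable f)
    (hg : Computable g) (hh : Computable h) : Computable fun a => B (f a) (g a) (h a) := by
  unfold B
  refine Computable.nat_rec (h := fun (a : α) (y : ℕ × ℕ) => W y.2 (g a)) hh hf ?_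
  unfold Computable₂
  fun_prop

/-- the iterates of the settling time -/
noncomputable def Bl (x0 n : ℕ) : ℕ := Nat.rec x0 (fun _ y => Wl y) n

@[simp] theorem Bl_zero (x0 : ℕ) : Bl x0 0 = x0 := rfl
theorem Bl_succ (x0 n : ℕ) : Bl x0 (n + 1) = Wl (Bl x0 n) := rfl

theorem B_le_Bl (x0 s n : ℕ) : B x0 s n ≤ Bl x0 n := by
  induction n with
  | zero => exact le_rfl
  | succ n ih =>
    rw [B_succ, Bl_succ]
    exact (W_mono ih).trans (W_le_Wl _ _)

theorem Bl_strictMono (x0 : ℕ) : StrictMono (Bl x0) :=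
  strictMono_nat_of_lt_succ fun n => lt_Wl _

theorem B_strictMono (x0 s : ℕ) : StrictMono (B x0 s) :=
  strictMono_nat_of_lt_succ fun n => lt_W _ _

theorem B_eq {x0 s n : ℕ} (h : Bl x0 n ≤ s) : B x0 s n = Bl x0 n := by
  induction n with
  | zero => rfl
  | succ n ih =>
    have h1 : Bl x0 n ≤ s := ((Bl_strictMono x0).monotone (Nat.le_succ n)).trans h
    rw [B_succ, ih h1]
    exact W_eq h

theorem le_B (x0 s n : ℕ) : n ≤ B x0 s n := by
  have := (B_strictMono x0 s).le_apply (x := n)
  exact this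

/-! ### internal sequences -/

/-- the ultrafilter -/
noncomputable abbrev U : Ultrafilter ℕ := hyperfilter ℕ

/-- `x` is below one of the iterates -/
def InM (x : ℕ → ℕ) : Prop := ∃ n, ∀ᶠ i in (U : Filter ℕ), x i ≤ Bl i n

theorem ev_ge (k : ℕ) : ∀ᶠ i in (U : Filter ℕ), k ≤ i := by
  have h : ∀ᶠ i in (atTop : Filter ℕ), k ≤ i := eventually_ge_atTop k
  rw [← Nat.cofinite_eq_atTop] at h
  exact h.filter_mono (hyperfilter_le_cofinite)

theorem InM.mono {x y : ℕ → ℕ} (hy : InM y) (h : ∀ᶠ i in (U : Filter ℕ), x i ≤ y i) : InM x := by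
  obtain ⟨n, hn⟩ := hy
  exact ⟨n, by filter_upwards [hn, h] with i h1 h2 using h2.trans h1⟩

theorem InM.const (k : ℕ) : InM fun _ => k :=
  ⟨0, by filter_upwards [ev_ge k] with i h using h⟩

theorem InM.id : InM fun i => i := ⟨0, by simp⟩

theorem InM.bl (n : ℕ) : InM fun i => Bl i n := ⟨n, by simp⟩

theorem InM.sup {x y : ℕ → ℕ} (hx : InM x) (hy : InM y) : InM fun i => max (x i) (y i) := by
  obtain ⟨n, hn⟩ := hx
  obtain ⟨m, hm⟩ := hy
  refine ⟨max n m, ?_⟩
  filter_upwards [hn, hm] with i h1 h2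
  have h3 := (Bl_strictMono i).monotone (le_max_left n m)
  have h4 := (Bl_strictMono i).monotone (le_max_right n m)
  omega

/-- the main closure property: witnesses of r.e. predicates -/
theorem InM.wit {P : ℕ → ℕ → Prop} (hP : REPred fun q : ℕ × ℕ => P q.1 q.2) {x : ℕ → ℕ}
    (hx : InM x) (h : ∀ᶠ i in (U : Filter ℕ), ∃ y, P (x i) y) :
    ∃ y : ℕ → ℕ, InM y ∧ ∀ᶠ i in (U : Filter ℕ), P (x i) (y i) := by
  classical
  obtain ⟨f, hf, hf1, hf2⟩ := uniformize (r := P) hP
  have hf' : Nat.Partrec f := Partrec.nat_iff.1 hf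
  obtain ⟨c, hc⟩ := Code.exists_code.1 hf'
  obtain ⟨n, hn⟩ := hx
  refine ⟨fun i => if hd : (f (x i)).Dom then (f (x i)).get hd else 0, ⟨n + 1, ?_⟩, ?_⟩
  · filter_upwards [hn, h, ev_ge (encode (Code.comp Code.zero c))] with i h1 h2 h3
    have hd : (f (x i)).Dom := (hf1 (x i)).2 h2
    simp only [dif_pos hd]
    have h4 : ∃ s, wst ℕ (encode (Code.comp Code.zero c)) s (x i) = true := by
      have h5 : 0 ∈ Code.eval (Code.comp Code.zero c) (x i) := by
        have h6 : (f (x i)).get hd ∈ Code.eval c (x i) := by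
          rw [hc]
          exact Part.get_mem hd
        exact Part.mem_bind h6 (Part.mem_some 0)
      obtain ⟨k, hk⟩ := Code.evaln_complete.1 h5
      refine ⟨k, ?_⟩
      unfold wst
      rw [Option.mem_def] at hk
      rw [Denumerable.ofNat_encode, encode_nat, hk]
      rfl
    have h5 : i ≤ Bl i n := (Bl_strictMono i).monotone (Nat.zero_le n)
    have h6 := (Wl_spec (Bl i n)).2 (encode (Code.comp Code.zero c)) (by omega) (x i) (by omega) h4
    rw [← Bl_succ] at h6
    unfold wst at h6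
    rw [Denumerable.ofNat_encode, encode_nat] at h6
    obtain ⟨y, hy⟩ := Option.isSome_iff_exists.1 h6
    generalize Bl i (n + 1) = k at hy ⊢
    rcases k with _ | k
    · simp [Code.evaln] at hy
    · simp only [Code.evaln] at hy
      rw [Option.bind_eq_bind, Option.bind_eq_some_iff] at hy
      obtain ⟨u, hu1, hy⟩ := hy
      rw [Option.bind_eq_bind, Option.bind_eq_some_iff] at hy
      obtain ⟨z, hz, hy⟩ := hy
      have h7 : z ∈ Code.eval c (x i) := Code.evaln_sound (Option.mem_def.2 hz)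
      rw [hc] at h7
      have h8 : (f (x i)).get hd = z := Part.get_eq_of_mem h7 hd
      rw [h8]
      have h9 : (z : ℕ) < k + 1 := by
        refine Code.evaln_bound (k := k + 1) (c := Code.zero) (n := z) (x := y) ?_
        rw [Option.mem_def]
        simpa [Code.evaln] using hy
      omega
  · filter_upwards [h] with i h2
    have hd : (f (x i)).Dom := (hf1 (x i)).2 h2
    simp only [dif_pos hd]
    exact hf2 (x i) _ (Part.get_mem hd)

end Pool.Agent.H869R3.DM
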