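import Pool.Agent.H869R3.DM.Rca

/-!
Relations which are computable in an oracle with a computable bound on the queries, and sets
of the structure defined by them.
-/

namespace Pool.Agent.H869R3.DM

open Pool.Agent.Helper446 Pool.Agent.Helper446.RE Encodable Filter
open Pool.Agent.Helper617.RM

section ud

variable {α β : Type} [Primcodable α] [Primcodable β]

@[fun_prop] theorem c_pow2 {f : α → ℕ} (hf : Computable f) : Computable fun a => 2 ^ f a := by
  have h : Primrec (fun i : ℕ => 2 ^ i) := by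
    have h1 : Primrec (fun i : ℕ =>
        (Nat.rec (motive := fun _ => ℕ) 1 (fun _ r => r * 2) i : ℕ)) :=
      Primrec.nat_rec₁ 1 (Primrec.nat_mul.comp Primrec.snd (Primrec.const 2)).to₂
    refine h1.of_eq fun i => ?_
    induction i with
    | zero => rfl
    | succ i ih => rw [pow_succ, ← ih]
  exact h.to_comp.comp hf

@[fun_prop] theorem c_div {f g : α → ℕ} (hf : Computable f) (hg : Computable g) :
    Computable fun a => f a / g a := Primrec.nat_div.to_comp.comp hf hg

@[fun_prop] theorem c_mod {f g : α → ℕ} (hf : Computable f) (hg : Computable g) :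
    Computable fun a => f a % g a := Primrec.nat_mod.to_comp.comp hf hg

theorem cp_testBit {f g : α → ℕ} (hf : Computable f) (hg : Computable g) :
    ComputablePred fun a => (f a).testBit (g a) = true := by
  have h : ComputablePred fun a => f a / 2 ^ g a % 2 = 1 := cp_eq (by fun_prop) (by fun_prop)
  refine h.of_eq fun a => ?_
  rw [Nat.testBit_eq_decide_div_mod_eq, decide_eq_true_iff]

/-- `S` is computable in the oracle with computably bounded queries -/
def UD (S : Set ℕ → α → Prop) : Prop :=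
  ∃ u : α → ℕ, Computable u ∧ ∃ Ψ : α × ℕ → Prop, ComputablePred Ψ ∧
    ∀ (X : Set ℕ) (a : α) (n : ℕ), (∀ k < u a, (k ∈ X ↔ n.testBit k = true)) →
      (S X a ↔ Ψ (a, n))

theorem UD.congr {S T : Set ℕ → α → Prop} (hS : UD S) (h : ∀ X a, S X a ↔ T X a) : UD T := by
  obtain ⟨u, hu, Ψ, hΨ, hS⟩ := hS
  exact ⟨u, hu, Ψ, hΨ, fun X a n hn => (h X a).symm.trans (hS X a n hn)⟩

theorem UD.of_cp {p : α → Prop} (hp : ComputablePred p) : UD fun _ a => p a :=
  ⟨fun _ => 0, by fun_prop, fun x => p x.1, cp_comp hp Computable.fst, fun _ _ _ _ => Iff.rfl⟩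

theorem UD.mem {f : α → ℕ} (hf : Computable f) : UD fun X a => f a ∈ X :=
  ⟨fun a => f a + 1, by fun_prop, fun x => x.2.testBit (f x.1) = true,
    cp_testBit (by fun_prop) (by fun_prop), fun X a n hn => hn _ (Nat.lt_succ_self _)⟩

theorem UD.not {S : Set ℕ → α → Prop} (hS : UD S) : UD fun X a => ¬ S X a := by
  obtain ⟨u, hu, Ψ, hΨ, hS⟩ := hS
  exact ⟨u, hu, fun x => ¬ Ψ x, hΨ.not, fun X a n hn => not_congr (hS X a n hn)⟩

theorem UD.and {S T : Set ℕ → α → Prop} (hS : UD S) (hT : UD T) :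
    UD fun X a => S X a ∧ T X a := by
  obtain ⟨u, hu, Ψ, hΨ, hS⟩ := hS
  obtain ⟨u', hu', Ψ', hΨ', hT⟩ := hT
  refine ⟨fun a => max (u a) (u' a), by fun_prop, fun x => Ψ x ∧ Ψ' x, cp_and hΨ hΨ',
    fun X a n hn => and_congr (hS X a n fun k hk => hn k ?_) (hT X a n fun k hk => hn k ?_)⟩ <;>
    simp only [lt_max_iff]
  · exact Or.inl hk
  · exact Or.inr hk

theorem UD.or {S T : Set ℕ → α → Prop} (hS : UD S) (hT : UD T) :
    UD fun X a => S X a ∨ T X a :=
  (hS.not.and hT.not).not.congr fun X a => by tauto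

theorem UD.imp {S T : Set ℕ → α → Prop} (hS : UD S) (hT : UD T) :
    UD fun X a => S X a → T X a :=
  (hS.not.or hT).congr fun X a => by tauto

theorem UD.iff {S T : Set ℕ → α → Prop} (hS : UD S) (hT : UD T) :
    UD fun X a => (S X a ↔ T X a) :=
  ((hS.imp hT).and (hT.imp hS)).congr fun X a => by tauto

theorem UD.comp {S : Set ℕ → β → Prop} (hS : UD S) {f : α → β} (hf : Computable f) :
    UD fun X a => S X (f a) := by
  obtain ⟨u, hu, Ψ, hΨ, hS⟩ := hS
  exact ⟨fun a => u (f a), by fun_prop, fun x => Ψ (f x.1, x.2),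
    cp_comp hΨ (f := fun x : α × ℕ => (f x.1, x.2)) (by fun_prop),
    fun X a n hn => hS X (f a) n hn⟩

/-- the maximum of a computable function below a bound -/
def mx (u : ℕ → ℕ) (n : ℕ) : ℕ := Nat.rec 0 (fun i r => max r (u i)) n

theorem le_mx {u : ℕ → ℕ} {n i : ℕ} (h : i < n) : u i ≤ mx u n := by
  induction n with
  | zero => omega
  | succ n ih =>
    show u i ≤ max (mx u n) (u n)
    rcases Nat.lt_succ_iff_lt_or_eq.1 h with h | h
    · exact (ih h).trans (le_max_left _ _)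
    · subst h; exact le_max_right _ _

theorem c_mx {u : α → ℕ → ℕ} (hu : Computable fun x : α × ℕ => u x.1 x.2) {f : α → ℕ}
    (hf : Computable f) : Computable fun a => mx (u a) (f a) := by
  unfold mx
  refine Computable.nat_rec (h := fun (a : α) (y : ℕ × ℕ) => max y.2 (u a y.1)) hf
    (by fun_prop) ?_
  unfold Computable₂
  have h := hu.comp (g := fun x : α × (ℕ × ℕ) => (x.1, x.2.1)) (by fun_prop)
  exact cmax (by fun_prop) h

theorem UD.all {S : Set ℕ → α → ℕ → Prop} (hS : UD fun X (x : α × ℕ) => S X x.1 x.2)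
    {f : α → ℕ} (hf : Computable f) : UD fun X a => ∀ i < f a, S X a i := by
  obtain ⟨u, hu, Ψ, hΨ, hS⟩ := hS
  refine ⟨fun a => mx (fun i => u (a, i)) (f a), c_mx hu hf,
    fun x => ∀ i < f x.1, Ψ ((x.1, i), x.2), ?_, fun X a n hn => ?_⟩
  · refine cp_all (p := fun (x : α × ℕ) i => Ψ ((x.1, i), x.2)) ?_ (by fun_prop)
    exact cp_comp hΨ (f := fun x : (α × ℕ) × ℕ => ((x.1.1, x.2), x.1.2)) (by fun_prop)
  · refine forall_congr' fun i => forall_congr' fun hi => ?_
    exact hS X (a, i) n fun k hk =>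
      hn k (lt_of_lt_of_le hk (le_mx (u := fun i => u (a, i)) hi))

theorem UD.ex {S : Set ℕ → α → ℕ → Prop} (hS : UD fun X (x : α × ℕ) => S X x.1 x.2)
    {f : α → ℕ} (hf : Computable f) : UD fun X a => ∃ i, i < f a ∧ S X a i :=
  (UD.all (S := fun X a i => ¬ S X a i) hS.not hf).not.congr fun X a => by push Not; rfl

open Classical in
/-- the number of elements below a bound -/
noncomputable def cnt (P : ℕ → Prop) (n : ℕ) : ℕ := Nat.count P n

@[simp] theorem cnt_zero (P : ℕ → Prop) : cnt P 0 = 0 := by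
  classical
  exact Nat.count_zero P

open Classical in
theorem cnt_succ (P : ℕ → Prop) (n : ℕ) : cnt P (n + 1) = cnt P n + if P n then 1 else 0 := by
  unfold cnt
  exact Nat.count_succ P n

/-- `F` is computable in the oracle with computably bounded queries -/
def UF (F : Set ℕ → α → ℕ) : Prop :=
  ∃ u : α → ℕ, Computable u ∧ ∃ Φ : α × ℕ → ℕ, Computable Φ ∧
    ∀ (X : Set ℕ) (a : α) (n : ℕ), (∀ k < u a, (k ∈ X ↔ n.testBit k = true)) → F X a = Φ (a, n)

theorem UF.cnt {S : Set ℕ → α → ℕ → Prop} (hS : UD fun X (x : α × ℕ) => S X x.1 x.2)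
    {f : α → ℕ} (hf : Computable f) : UF fun X a => cnt (S X a) (f a) := by
  classical
  obtain ⟨u, hu, Ψ, hΨ, hS⟩ := hS
  refine ⟨fun a => mx (fun i => u (a, i)) (f a), c_mx hu hf,
    fun x => Nat.rec 0 (fun i r => r + if Ψ ((x.1, i), x.2) then 1 else 0) (f x.1), ?_,
    fun X a n hn => ?_⟩
  · refine Computable.nat_rec (h := fun (x : α × ℕ) (y : ℕ × ℕ) =>
      y.2 + if Ψ ((x.1, y.1), x.2) then 1 else 0) (by fun_prop) (by fun_prop) ?_
    unfold Computable₂
    refine cadd (by fun_prop) ?_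
    refine cite (p := fun x : (α × ℕ) × (ℕ × ℕ) => Ψ ((x.1.1, x.2.1), x.1.2)) ?_
      (by fun_prop) (by fun_prop)
    exact cp_comp hΨ (f := fun x : (α × ℕ) × (ℕ × ℕ) => ((x.1.1, x.2.1), x.1.2)) (by fun_prop)
  · have key : ∀ m, m ≤ f a → DM.cnt (S X a) m =
        Nat.rec 0 (fun i r => r + if Ψ ((a, i), n) then 1 else 0) m := by
      intro m
      induction m with
      | zero => intro _; simp
      | succ m ih =>
        intro hm
        rw [cnt_succ, ih (by omega)]
        have h1 : S X a m ↔ Ψ ((a, m), n) := hS X (a, m) n fun k hk =>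
          hn k (lt_of_lt_of_le hk (le_mx (u := fun i => u (a, i)) (by omega)))
        simp only [h1]
    exact key _ le_rfl

theorem UF.rel {F : Set ℕ → α → ℕ} (hF : UF F) {R : α → ℕ → Prop}
    (hR : ComputablePred fun x : α × ℕ => R x.1 x.2) : UD fun X a => R a (F X a) := by
  obtain ⟨u, hu, Φ, hΦ, hF⟩ := hF
  refine ⟨u, hu, fun x => R x.1 (Φ x), ?_, fun X a n hn => by
    show R a (F X a) ↔ R a (Φ (a, n))
    rw [hF X a n hn]⟩
  exact cp_comp hR (f := fun x : α × ℕ => (x.1, Φ x)) (by fun_prop)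

end ud

/-! ### the transfer -/

theorem exists_bits (X : Set ℕ) (u : ℕ) : ∃ n : ℕ, ∀ k < u, (k ∈ X ↔ n.testBit k = true) := by
  classical
  refine ⟨Nat.ofBits (fun k : Fin u => decide ((k : ℕ) ∈ X)), fun k hk => ?_⟩
  rw [Nat.testBit_ofBits_lt _ _ hk]
  simp

variable {X : Set MM} {A1 A0 : ℕ → ℕ → Prop} {p : ℕ → ℕ}

/-- the internal extension of a set of the structure -/
def hat (A1 : ℕ → ℕ → Prop) (p : ℕ → ℕ) (i : ℕ) : Set ℕ := {k | A1 (p i) k}

theorem Computes.mem_iff (h : Computes X A1 A0 p) (x : MM) :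
    x ∈ X ↔ ∀ᶠ i in (U : Filter ℕ), rep x i ∈ hat A1 p i := (h x).1

theorem Computes.mk_mem (h : Computes X A1 A0 p) {x : ℕ → ℕ} (hx : InM x) :
    mk x hx ∈ X ↔ ∀ᶠ i in (U : Filter ℕ), x i ∈ hat A1 p i := by
  rw [h.mem_iff]
  refine ev_congr ?_
  filter_upwards [rep_mk hx] with i hi
  rw [hi]

theorem Computes.transfer (c1 : REPred fun q : ℕ × ℕ => A1 q.1 q.2)
    (c0 : REPred fun q : ℕ × ℕ => A0 q.1 q.2) (h : Computes X A1 A0 p)
    {α : Type} [Primcodable α] {S : Set ℕ → α → Prop} (hS : UD S) :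
    ∃ E : ℕ → α → Prop, REPred (fun q : ℕ × α => E q.1 q.2) ∧ ∀ a : ℕ → α,
      InM (fun i => encode (a i)) → ((∀ᶠ i in (U : Filter ℕ), S (hat A1 p i) (a i)) ↔
        ∀ᶠ i in (U : Filter ℕ), E (p i) (a i)) := by
  obtain ⟨u, hu, Ψ, hΨ, hS⟩ := hS
  refine ⟨fun q a => ∃ n : ℕ, (∀ k < u a, (n.testBit k = true ∧ A1 q k) ∨
    (¬ n.testBit k = true ∧ A0 q k)) ∧ Ψ (a, n), ?_, fun a ha => ?_⟩
  · refine RE.exN (p := fun (x : ℕ × α) (n : ℕ) => (∀ k < u x.2, (n.testBit k = true ∧ A1 x.1 k) ∨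
      (¬ n.testBit k = true ∧ A0 x.1 k)) ∧ Ψ (x.2, n)) (RE.and ?_ ?_)
    · refine RE.all_lt (p := fun (x : (ℕ × α) × ℕ) k => (x.2.testBit k = true ∧ A1 x.1.1 k) ∨
        (¬ x.2.testBit k = true ∧ A0 x.1.1 k)) (RE.or (RE.and ?_ ?_) (RE.and ?_ ?_))
        (by fun_prop)
      · exact (cp_testBit (by fun_prop) (by fun_prop)).to_re
      · exact RE.comp c1 (f := fun x : ((ℕ × α) × ℕ) × ℕ => (x.1.1.1, x.2)) (by fun_prop)
      · exact (cp_testBit (by fun_prop) (by fun_prop)).not.to_re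
      · exact RE.comp c0 (f := fun x : ((ℕ × α) × ℕ) × ℕ => (x.1.1.1, x.2)) (by fun_prop)
    · exact (cp_comp hΨ (f := fun x : (ℕ × α) × ℕ => (x.1.2, x.2)) (by fun_prop)).to_re
  · have huM : InM fun i => u (a i) := by
      have h1 : Computable fun z : ℕ => ((decode z : Option α).map u).getD 0 :=
        Computable.option_getD (Computable.option_map Computable.decode
          (hu.comp Computable.snd).to₂) (Computable.const 0)
      refine (ha.comp h1).mono (Eventually.of_forall fun i => ?_)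
      simp
    have hle : ∀ k : ℕ → ℕ, (∀ᶠ i in (U : Filter ℕ), k i < u (a i)) → InM k := fun k hk =>
      huM.mono (by filter_upwards [hk] with i hi using hi.le)
    constructor
    · intro h1
      choose n hn using fun i => exists_bits (hat A1 p i) (u (a i))
      have h2 : ∀ᶠ i in (U : Filter ℕ), ∀ k < u (a i), k ∉ hat A1 p i → A0 (p i) k := by
        by_contra hcon
        have hcon := ev_not.2 hcon
        have h3 : ∀ᶠ i in (U : Filter ℕ), ∃ k, k < u (a i) ∧ k ∉ hat A1 p i ∧ ¬ A0 (p i) k := by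
          filter_upwards [hcon] with i hi
          push Not at hi
          exact hi
        obtain ⟨k, hk⟩ := h3.choice
        have hkM := hle k (by filter_upwards [hk] with i hi using hi.1)
        have h4 : mk k hkM ∉ X := by
          intro h5
          have h6 := (h.mk_mem hkM).1 h5
          exact ev_false (h6.and hk) fun i hi => hi.2.2.1 hi.1
        have h5 := (h _).2.1 h4
        refine ev_false (h5.and (hk.and (rep_mk hkM))) ?_
        rintro i ⟨e1, e2, e3⟩
        rw [e3] at e1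
        exact e2.2.2 e1
      filter_upwards [h1, h2] with i e1 e2
      refine ⟨n i, fun k hk => ?_, (hS _ _ _ (hn i)).1 e1⟩
      by_cases hk' : k ∈ hat A1 p i
      · exact Or.inl ⟨(hn i k hk).1 hk', hk'⟩
      · exact Or.inr ⟨fun h3 => hk' ((hn i k hk).2 h3), e2 k hk hk'⟩
    · intro h1
      obtain ⟨n, hn⟩ := h1.choice
      have h2 : ∀ᶠ i in (U : Filter ℕ), ∀ k < u (a i), ¬ (k ∈ hat A1 p i ∧ A0 (p i) k) := by
        by_contra hcon
        have hcon := ev_not.2 hcon
        have h3 : ∀ᶠ i in (U : Filter ℕ), ∃ k, k < u (a i) ∧ (k ∈ hat A1 p i ∧ A0 (p i) k) := by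
          filter_upwards [hcon] with i hi
          push Not at hi
          obtain ⟨k, hk1, hk2, hk3⟩ := hi
          exact ⟨k, hk1, hk2, hk3⟩
        obtain ⟨k, hk⟩ := h3.choice
        have hkM := hle k (by filter_upwards [hk] with i hi using hi.1)
        have h4 : mk k hkM ∈ X := (h.mk_mem hkM).2 (by
          filter_upwards [hk] with i hi using hi.2.1)
        refine (h _).2.2 ?_ h4
        filter_upwards [hk, rep_mk hkM] with i e1 e2
        rw [e2]
        exact e1.2.2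
      filter_upwards [hn, h2] with i e1 e2
      refine (hS _ _ (n i) fun k hk => ?_).2 e1.2
      rcases e1.1 k hk with ⟨h3, h4⟩ | ⟨h3, h4⟩
      · exact ⟨fun _ => h3, fun _ => h4⟩
      · exact ⟨fun h5 => absurd ⟨h5, h4⟩ (e2 k hk), fun h5 => absurd h5 h3⟩

theorem sets_of_UD (c1 : REPred fun q : ℕ × ℕ => A1 q.1 q.2)
    (c0 : REPred fun q : ℕ × ℕ => A0 q.1 q.2) (hp : InM p) (h : Computes X A1 A0 p)
    {S : Set ℕ → ℕ × ℕ → Prop} (hS : UD S) {q : ℕ → ℕ} (hq : InM q) :
    {x : NN.M | ∀ᶠ i in (U : Filter ℕ), S (hat A1 p i) (q i, rep x i)} ∈ NN.Sets := by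
  obtain ⟨E1, d1, h1⟩ := h.transfer c1 c0 hS
  obtain ⟨E0, d0, h0⟩ := h.transfer c1 c0 hS.not
  refine ⟨fun z x => E1 z.unpair.1 (z.unpair.2, x), fun z x => E0 z.unpair.1 (z.unpair.2, x),
    ?_, ?_, fun i => Nat.pair (p i) (q i), hp.pair hq, fun x => ⟨?_, ?_⟩⟩
  · exact RE.comp d1 (f := fun y : ℕ × ℕ => (y.1.unpair.1, (y.1.unpair.2, y.2))) (by fun_prop)
  · exact RE.comp d0 (f := fun y : ℕ × ℕ => (y.1.unpair.1, (y.1.unpair.2, y.2))) (by fun_prop)
  · simp only [Nat.unpair_pair]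
    exact h1 (fun i => (q i, rep x i)) (hq.pair (rep_inM x))
  · simp only [Nat.unpair_pair]
    rw [← h0 (fun i => (q i, rep x i)) (hq.pair (rep_inM x)), ev_not]
    rfl

end Pool.Agent.H869R3.DM
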